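import Pool.Agent.K9h90.CN.Stm
import Pool.Agent.Helper112.Arith

/-!
# Project CN: complete cubic sums modulo all `q` (helper51)
-/

set_option autoImplicit false

open Finset

namespace Pool.Agent.K9h90.CN

namespace HU

theorem e_add (x y : ℝ) : e (x + y) = e x * e y := by
  unfold e
  rw [← Complex.exp_add]
  congr 1
  push_cast
  ring

theorem e_int (m : ℤ) : e (m : ℝ) = 1 := by
  unfold e
  rw [← Complex.exp_int_mul_two_pi_mul_I m]
  congr 1
  push_cast
  ring

theorem e_norm (x : ℝ) : ‖e x‖ = 1 := by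
  unfold e
  rw [show (2 * (Real.pi : ℂ) * Complex.I * (x : ℂ)) = ((2 * Real.pi * x : ℝ) : ℂ) * Complex.I by
    push_cast; ring, Complex.norm_exp_ofReal_mul_I]

theorem e_congr {q : ℕ} (hq : 1 ≤ q) {u v : ℤ} (h : (q : ℤ) ∣ u - v) :
    e ((u : ℝ) / q) = e ((v : ℝ) / q) := by
  obtain ⟨k, hk⟩ := h
  have hq0 : (q : ℝ) ≠ 0 := by exact_mod_cast (by omega : q ≠ 0)
  have h1 : (u : ℝ) / q = (v : ℝ) / q + (k : ℝ) := by
    have h2 : (u : ℝ) = v + q * k := by
      have : u = v + q * k := by linarith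
      exact_mod_cast this
    rw [h2]
    field_simp
  rw [h1, e_add, e_int, mul_one]

/-- the value at a residue class -/
noncomputable def val (q : ℕ) (a b : ℤ) (x : ZMod q) : ℂ :=
  e (((a * (x.val : ℤ) ^ 3 + b * (x.val : ℤ) : ℤ) : ℝ) / (q : ℝ))

theorem val_int {q : ℕ} [NeZero q] (a b : ℤ) (j : ℤ) :
    val q a b (j : ZMod q) = e (((a * j ^ 3 + b * j : ℤ) : ℝ) / (q : ℝ)) := by
  unfold val
  refine e_congr (Nat.pos_of_ne_zero (NeZero.ne q)) ?_
  have h1 : ((j : ℤ) : ZMod q) = (((((j : ZMod q)).val : ℕ) : ℤ) : ZMod q) := by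
    rw [Int.cast_natCast, ZMod.natCast_zmod_val]
  have h2 := (ZMod.intCast_eq_intCast_iff_dvd_sub _ _ _).1 h1
  have h3 : a * ((((j : ZMod q)).val : ℕ) : ℤ) ^ 3 + b * ((((j : ZMod q)).val : ℕ) : ℤ) -
      (a * j ^ 3 + b * j) = (((((j : ZMod q)).val : ℕ) : ℤ) - j) *
        (a * (((((j : ZMod q)).val : ℕ) : ℤ) ^ 2 + ((((j : ZMod q)).val : ℕ) : ℤ) * j + j ^ 2) + b) := by
    ring
  rw [h3]
  exact Dvd.dvd.mul_right h2 _

theorem cs_val {q : ℕ} [NeZero q] (a b : ℤ) : cs q a b = ∑ x : ZMod q, val q a b x := by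
  unfold cs val
  symm
  refine sum_bij' (fun a _ => a.val) (fun j _ => (j : ZMod q)) ?_ ?_ ?_ ?_ ?_
  · intro a _
    exact mem_range.2 (ZMod.val_lt a)
  · intro j _
    exact mem_univ _
  · intro a _
    exact ZMod.natCast_zmod_val a
  · intro j hj
    exact ZMod.val_cast_of_lt (mem_range.1 hj)
  · intro a _
    rfl

/-- multiplicativity -/
theorem cs_mul {m n : ℕ} [NeZero m] [NeZero n] (hmn : m.Coprime n) (a b : ℤ) :
    ∃ u v : ℤ, u * n + v * m = 1 ∧ cs (m * n) a b = cs m (u * a) (u * b) * cs n (v * a) (v * b) := by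
  have hm0 : (m : ℝ) ≠ 0 := by exact_mod_cast NeZero.ne m
  have hn0 : (n : ℝ) ≠ 0 := by exact_mod_cast NeZero.ne n
  obtain ⟨v, u, huv⟩ := (Nat.isCoprime_iff_coprime.2 hmn : IsCoprime (m : ℤ) (n : ℤ))
  refine ⟨u, v, by linarith, ?_⟩
  haveI : NeZero (m * n) := ⟨Nat.mul_ne_zero (NeZero.ne m) (NeZero.ne n)⟩
  rw [cs_val, cs_val, cs_val, ← Equiv.sum_comp (ZMod.chineseRemainder hmn).symm.toEquiv,
    Fintype.sum_prod_type, sum_mul_sum]
  refine sum_congr rfl fun x _ => sum_congr rfl fun y _ => ?_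
  have h0 : (ZMod.chineseRemainder hmn).symm.toEquiv (x, y) = (ZMod.chineseRemainder hmn).symm (x, y) :=
    rfl
  rw [h0]
  obtain ⟨j, hj⟩ := ZMod.intCast_surjective ((ZMod.chineseRemainder hmn).symm (x, y))
  have h1 : (x, y) = ((j : ZMod m), (j : ZMod n)) := by
    have h2 : ZMod.chineseRemainder hmn (j : ZMod (m * n)) = (x, y) := by
      rw [hj, RingEquiv.apply_symm_apply]
    rw [← h2, map_intCast]
    rfl
  have hx : x = (j : ZMod m) := congrArg Prod.fst h1
  have hy : y = (j : ZMod n) := congrArg Prod.snd h1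
  rw [← hj, hx, hy, val_int, val_int, val_int, ← e_add]
  congr 1
  have h4 : (v : ℝ) * m + u * n = 1 := by exact_mod_cast huv
  push_cast
  field_simp
  linear_combination (-((a : ℝ) * j ^ 3 + b * j)) * h4

theorem cs_one (a b : ℤ) : cs 1 a b = 1 := by
  unfold cs
  rw [Finset.sum_range_one]
  simp [e]

/-- the bound with a power of the number of divisors -/
theorem bound {C : ℝ} {K : ℕ} (hCK : C ≤ 2 ^ K)
    (h : ∀ p : ℕ, p.Prime → ∀ r : ℕ, ∀ a b : ℤ, ¬ (p : ℤ) ∣ a →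
      ‖cs (p ^ r) a b‖ ≤ C * ((p : ℝ) ^ r) ^ (2 / 3 : ℝ)) (q : ℕ) :
    1 ≤ q → ∀ a b : ℤ, IsCoprime a (q : ℤ) →
      ‖cs q a b‖ ≤ (q.divisors.card : ℝ) ^ K * (q : ℝ) ^ (2 / 3 : ℝ) := by
  induction q using Nat.recOnPosPrimePosCoprime with
  | prime_pow p r hp hr =>
    intro _ a b hab
    have hpa : ¬ (p : ℤ) ∣ a := by
      intro hd
      have h1 : (p : ℤ) ∣ ((p ^ r : ℕ) : ℤ) := by
        push_cast
        exact dvd_pow_self _ (by omega)
      have h2 := hab.isUnit_of_dvd' hd h1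
      rw [Int.isUnit_iff] at h2
      have := hp.two_le
      omega
    refine (h p hp r a b hpa).trans ?_
    push_cast
    refine mul_le_mul_of_nonneg_right ?_ (by positivity)
    rw [Nat.divisors_prime_pow hp, Finset.card_map, Finset.card_range]
    refine hCK.trans (pow_le_pow_left₀ (by norm_num) ?_ K)
    have : (1 : ℝ) ≤ r := by exact_mod_cast hr
    push_cast
    linarith
  | zero => intro h0; omega
  | one =>
    intro _ a b _
    rw [cs_one]
    simp
  | coprime m n hm hn hmn ihm ihn =>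
    intro _ a b hab
    haveI : NeZero m := ⟨by omega⟩
    haveI : NeZero n := ⟨by omega⟩
    obtain ⟨u, v, huv, he⟩ := cs_mul hmn a b
    push_cast at hab
    have hum : IsCoprime (u * a) (m : ℤ) := by
      refine IsCoprime.mul_left ?_ (IsCoprime.of_mul_right_left hab)
      exact ⟨n, v, by linarith⟩
    have hvn : IsCoprime (v * a) (n : ℤ) := by
      refine IsCoprime.mul_left ?_ (IsCoprime.of_mul_right_right hab)
      exact ⟨m, u, by linarith⟩
    have h1 := ihm (by omega) (u * a) (u * b) hum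
    have h2 := ihn (by omega) (v * a) (v * b) hvn
    rw [he, norm_mul, hmn.card_divisors_mul]
    refine (mul_le_mul h1 h2 (norm_nonneg _) (by positivity)).trans (le_of_eq ?_)
    push_cast
    rw [Real.mul_rpow (Nat.cast_nonneg m) (Nat.cast_nonneg n)]
    ring

end HU

theorem hu (h : S_PP) : S_HU := by
  intro ε hε
  obtain ⟨C, _, hC⟩ := h
  obtain ⟨K, hK⟩ := pow_unbounded_of_one_lt C (show (1 : ℝ) < 2 by norm_num)
  obtain ⟨D, hD0, hD⟩ := Pool.Agent.Helper112.divisor_bound (ε / (K + 1)) (by positivity)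
  refine ⟨max 1 (D ^ K), le_max_left _ _, fun q hq a b hab => ?_⟩
  have h1 := HU.bound hK.le hC q hq a b hab
  refine h1.trans ?_
  have hq1 : (1 : ℝ) ≤ q := by exact_mod_cast hq
  have hq0 : (0 : ℝ) < q := by linarith
  have h2 : (q.divisors.card : ℝ) ^ K ≤ D ^ K * (q : ℝ) ^ ε := by
    refine (pow_le_pow_left₀ (Nat.cast_nonneg _) (hD q hq) K).trans ?_
    rw [mul_pow]
    refine mul_le_mul_of_nonneg_left ?_ (by positivity)
    rw [← Real.rpow_natCast ((q : ℝ) ^ (ε / (K + 1))) K, ← Real.rpow_mul hq0.le]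
    refine Real.rpow_le_rpow_of_exponent_le hq1 ?_
    rw [div_mul_eq_mul_div, div_le_iff₀ (by positivity)]
    nlinarith
  calc (q.divisors.card : ℝ) ^ K * (q : ℝ) ^ (2 / 3 : ℝ)
      ≤ (D ^ K * (q : ℝ) ^ ε) * (q : ℝ) ^ (2 / 3 : ℝ) :=
        mul_le_mul_of_nonneg_right h2 (by positivity)
    _ = D ^ K * (q : ℝ) ^ (2 / 3 + ε : ℝ) := by
        rw [Real.rpow_add hq0]
        ring
    _ ≤ _ := mul_le_mul_of_nonneg_right (le_max_right _ _) (by positivity)

end Pool.Agent.K9h90.CN
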