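import Pool.Agent.W928.MW.Trans2
import Pool.Agent.TH181.MX.Sum

/-!
# Project CN: sums over the arithmetic progressions defined by the congruence (helper90)
-/

set_option autoImplicit false

open Finset

namespace Pool.Agent.K9h90.CN

open Pool.Agent.W928.MW (e sm prs p Q e_add e_norm)
open Pool.Agent.H807R2.Dav (ee KK KK_nonneg KK_neg KK_le geo_bound vino)
open Pool.Agent.TH181.MX (e_ee KK_abs)

/-- geometric sums over an interval of integers -/
lemma geoZ (A B : ℤ) (x y M : ℝ) (hM : 0 ≤ M) (h : (B : ℝ) + 1 - A ≤ M) :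
    ‖∑ n ∈ Icc A B, e (x * (n : ℝ) + y)‖ ≤ KK M x := by
  rcases lt_or_ge B A with hBA | hBA
  · rw [Finset.Icc_eq_empty (by omega), Finset.sum_empty, norm_zero]
    exact KK_nonneg hM _
  · have h1 : ∑ n ∈ Icc A B, e (x * (n : ℝ) + y) =
        e (x * A + y) * ∑ m ∈ Ico 0 (B + 1 - A).toNat, ee (m * x) := by
      rw [Finset.mul_sum]
      apply Finset.sum_nbij' (fun n : ℤ => (n - A).toNat) (fun n : ℕ => (n : ℤ) + A)
      · intro n hn
        rw [Finset.mem_Icc] at hn
        rw [Finset.mem_Ico]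
        omega
      · intro n hn
        rw [Finset.mem_Ico] at hn
        rw [Finset.mem_Icc]
        omega
      · intro n hn
        rw [Finset.mem_Icc] at hn
        omega
      · intro n _
        omega
      · intro n hn
        rw [Finset.mem_Icc] at hn
        have h2 : (((n - A).toNat : ℕ) : ℤ) = n - A := Int.toNat_of_nonneg (by omega)
        have h3 : (((n - A).toNat : ℕ) : ℝ) = (n : ℝ) - A := by
          rw [← Int.cast_natCast, h2]; push_cast; ring
        rw [h3, ← e_ee, ← e_add]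
        congr 1
        ring
    rw [h1, norm_mul, e_norm, one_mul]
    apply geo_bound _ _ (by omega)
    have h4 : (((B + 1 - A).toNat : ℕ) : ℝ) = (B : ℝ) + 1 - A := by
      have : (((B + 1 - A).toNat : ℕ) : ℤ) = B + 1 - A := Int.toNat_of_nonneg (by omega)
      rw [← Int.cast_natCast, this]; push_cast; ring
    rw [h4]
    simpa using h

/-- the sum over the solutions `x` of the congruence -/
lemma ap (q N : ℕ) (hq : 1 ≤ q) (c w A B : ℤ) (hc : c ≠ 0) (β : ℝ) (hAB : B - A + 1 ≤ N) :
    ∃ l : ℕ, (l * Int.gcd c q = c.natAbs ∨ l * Int.gcd c q = 2 * c.natAbs) ∧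
      ‖∑ x ∈ (Icc A B).filter (fun x => (q : ℤ) ∣ c * (w - 2 * x)),
        e (β * ((c * (w - 2 * x) : ℤ) : ℝ))‖ ≤
        KK (2 * N * (Int.gcd c q : ℝ) / q + 1) (l * (β * q)) := by
  classical
  set g : ℕ := Int.gcd c q with hg
  have hqZ : (q : ℤ) ≠ 0 := by exact_mod_cast (by omega : q ≠ 0)
  have hg0 : 0 < g := Int.gcd_pos_of_ne_zero_left _ hc
  have hgR : (0 : ℝ) < g := by exact_mod_cast hg0
  have hqR : (0 : ℝ) < q := by exact_mod_cast hq
  obtain ⟨c', hc'⟩ : (g : ℤ) ∣ c := Int.gcd_dvd_left _ _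
  obtain ⟨D, hD⟩ : (g : ℤ) ∣ q := Int.gcd_dvd_right _ _
  have hgZ : (g : ℤ) ≠ 0 := by exact_mod_cast hg0.ne'
  have hcop : IsCoprime c' D := by
    have h1 : Int.gcd c (q : ℤ) = g := rfl
    have h2 : Int.gcd (g * c') (g * D) = g := by rw [← hc', ← hD]
    rw [Int.gcd_mul_left, Int.natAbs_natCast] at h2
    rw [Int.isCoprime_iff_gcd_eq_one]
    exact Nat.eq_of_mul_eq_mul_left hg0 (by rw [h2, mul_one])
  have hD0 : 0 < D := by
    have h1 : (0 : ℤ) < g * D := by rw [← hD]; exact_mod_cast hq
    exact (pos_iff_pos_of_mul_pos h1).1 (by exact_mod_cast hg0)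
  have hiff : ∀ y : ℤ, (q : ℤ) ∣ c * y ↔ D ∣ y := by
    intro y
    rw [hc', hD, mul_assoc, mul_dvd_mul_iff_left hgZ]
    constructor
    · intro h
      exact hcop.symm.dvd_of_dvd_mul_left h
    · intro h
      exact h.mul_left _
  have hM : (0 : ℝ) ≤ 2 * N * (g : ℝ) / q + 1 := by positivity
  -- the difference of the progression
  obtain ⟨κ, D', hκ, hDD, hD'⟩ : ∃ (κ : ℕ) (D' : ℤ), (κ = 1 ∨ κ = 2) ∧ 2 * D' = κ * D ∧
      ∀ x x' : ℤ, D ∣ 2 * (x' - x) → D' ∣ x' - x := by
    rcases Int.even_or_odd' D with ⟨k, hk | hk⟩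
    · refine ⟨1, k, Or.inl rfl, by rw [hk]; ring, fun x x' h => ?_⟩
      rw [hk] at h
      exact (mul_dvd_mul_iff_left (by norm_num)).1 h
    · refine ⟨2, D, Or.inr rfl, by push_cast; ring, fun x x' h => ?_⟩
      have h2 : IsCoprime D 2 := ⟨1, -k, by rw [hk]; ring⟩
      exact h2.dvd_of_dvd_mul_left h
  have hD'0 : 0 < D' := by
    rcases hκ with h | h <;> rw [h] at hDD <;> push_cast at hDD <;> omega
  set l : ℕ := κ * c'.natAbs with hl
  refine ⟨l, ?_, ?_⟩
  · have h1 : c.natAbs = g * c'.natAbs := by rw [hc', Int.natAbs_mul, Int.natAbs_natCast]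
    rcases hκ with h | h
    · left; rw [hl, h, h1]; ring
    · right; rw [hl, h, h1]; ring
  -- argument of the kernel
  have hKK : ∀ M : ℝ, KK M (-(2 * β * c * D')) = KK M (l * (β * q)) := by
    intro M
    have h1 : (2 * β * (c : ℝ) * (D' : ℝ)) = (((κ * c' : ℤ)) : ℝ) * (β * q) := by
      have h2 : ((2 * D' : ℤ) : ℝ) = ((κ * D : ℤ) : ℝ) := by rw [hDD]
      have h3 : (c : ℝ) = g * c' := by rw [hc']; push_cast; ring
      have h4 : (q : ℝ) = g * D := by
        have : ((q : ℤ) : ℝ) = ((g * D : ℤ) : ℝ) := by rw [hD]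
        push_cast at this
        exact this
      push_cast at h2 ⊢
      rw [h3, h4]
      linear_combination β * g * c' * h2
    rw [KK_neg, h1, KK_abs]
    congr 2
    rw [hl, Int.natAbs_mul, Int.natAbs_natCast]
  set S := (Icc A B).filter (fun x => (q : ℤ) ∣ c * (w - 2 * x)) with hS
  rcases S.eq_empty_or_nonempty with hE | hE
  · rw [hE, Finset.sum_empty, norm_zero]
    exact KK_nonneg hM _
  · set x0 := S.min' hE with hx0
    have hx0S : x0 ∈ S := Finset.min'_mem _ _
    have hx0' := hx0S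
    rw [hS, Finset.mem_filter, Finset.mem_Icc, hiff] at hx0'
    obtain ⟨⟨hx1, hx2⟩, hx3⟩ := hx0'
    have himg : ∑ x ∈ S, e (β * ((c * (w - 2 * x) : ℤ) : ℝ)) =
        ∑ y ∈ Icc 0 ((B - x0) / D'), e (β * ((c * (w - 2 * (x0 + D' * y)) : ℤ) : ℝ)) := by
      symm
      apply Finset.sum_nbij (fun y : ℤ => x0 + D' * y)
      · intro y hy
        rw [Finset.mem_Icc] at hy
        rw [hS, Finset.mem_filter, Finset.mem_Icc, hiff]
        have h1 : D' * y ≤ B - x0 := by
          have h2 := Int.mul_ediv_self_le (x := B - x0) (k := D') hD'0.ne'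
          have h3 := mul_le_mul_of_nonneg_left hy.2 hD'0.le
          linarith
        have h2 : 0 ≤ D' * y := mul_nonneg hD'0.le hy.1
        refine ⟨⟨by linarith, by linarith⟩, ?_⟩
        have h3 : w - 2 * (x0 + D' * y) = (w - 2 * x0) - (2 * D') * y := by ring
        rw [h3, hDD]
        exact dvd_sub hx3 ((dvd_mul_left _ _).mul_right _)
      · intro y _ y' _ h
        have h1 : D' * y = D' * y' := by
          simp only at h
          linarith
        exact mul_left_cancel₀ hD'0.ne' h1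
      · intro x hx
        have hx' := Finset.mem_coe.1 hx
        have hmin : x0 ≤ x := Finset.min'_le _ _ hx'
        rw [hS, Finset.mem_filter, Finset.mem_Icc, hiff] at hx'
        obtain ⟨⟨h1, h2⟩, h3⟩ := hx'
        have h4 : D ∣ 2 * (x - x0) := by
          have h5 : 2 * (x - x0) = (w - 2 * x0) - (w - 2 * x) := by ring
          rw [h5]
          exact dvd_sub hx3 h3
        obtain ⟨y, hy⟩ := hD' x0 x h4
        refine ⟨y, ?_, by simp only; linarith⟩
        rw [Finset.mem_coe, Finset.mem_Icc]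
        constructor
        · by_contra hneg
          push Not at hneg
          have : D' * y < 0 := mul_neg_of_pos_of_neg hD'0 hneg
          linarith
        · rw [Int.le_ediv_iff_mul_le hD'0]
          linarith
      · intro y _
        rfl
    rw [himg]
    have h1 : ∀ y ∈ Icc 0 ((B - x0) / D'), e (β * ((c * (w - 2 * (x0 + D' * y)) : ℤ) : ℝ)) =
        e (-(2 * β * c * D') * (y : ℝ) + β * (c * (w - 2 * x0))) := by
      intro y _
      congr 1
      push_cast
      ring
    rw [Finset.sum_congr rfl h1, ← hKK]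
    apply geoZ _ _ _ _ _ hM
    -- length
    have h2 : (((B - x0) / D' : ℤ) : ℝ) ≤ 2 * N * (g : ℝ) / q := by
      have h3 : D' * ((B - x0) / D') ≤ N := by
        have h4 := Int.mul_ediv_self_le (x := B - x0) (k := D') hD'0.ne'
        linarith
      have h4 : (q : ℤ) * ((B - x0) / D') ≤ 2 * N * g := by
        have h5 : 0 ≤ (B - x0) / D' := Int.ediv_nonneg (by linarith) hD'0.le
        have h6 : (q : ℤ) ≤ 2 * g * D' := by
          rw [hD]
          have h7 : D ≤ 2 * D' := by
            rcases hκ with h | h <;> rw [h] at hDD <;> push_cast at hDD <;> omega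
          calc (g : ℤ) * D ≤ g * (2 * D') := mul_le_mul_of_nonneg_left h7 (by positivity)
            _ = 2 * g * D' := by ring
        calc (q : ℤ) * ((B - x0) / D') ≤ (2 * g * D') * ((B - x0) / D') :=
              mul_le_mul_of_nonneg_right h6 h5
          _ = 2 * g * (D' * ((B - x0) / D')) := by ring
          _ ≤ 2 * g * N := mul_le_mul_of_nonneg_left h3 (by positivity)
          _ = 2 * N * g := by ring
      rw [le_div_iff₀ hqR]
      have h5 : (((q : ℤ) * ((B - x0) / D') : ℤ) : ℝ) ≤ ((2 * N * g : ℤ) : ℝ) := by exact_mod_cast h4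
      push_cast at h5
      linarith
    push_cast
    linarith

end Pool.Agent.K9h90.CN
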