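import Pool.Agent.K9h90.CN.L1

/-!
# Project CN: the fourth moment over the numerators (helper90)
-/

set_option autoImplicit false

open Finset

namespace Pool.Agent.K9h90.CN

open Pool.Agent.W928.MW (e sm prs p Q e_add e_norm e_eq_one e_nsmul e_int)
open Pool.Agent.H807R2.Dav (ee KK KK_nonneg KK_neg KK_le geo_bound vino)

/-- the cubic phase on the line `x + y = m` -/
def ff (m : ℕ) (x : ℤ) : ℤ := x ^ 3 + ((m : ℤ) - x) ^ 3

lemma ff_sub (m : ℕ) (x u : ℤ) : ff m x - ff m (x + u) = (3 * m * u) * ((m - u) - 2 * x) := by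
  unfold ff; ring

/-- lower and upper end of the line -/
noncomputable def lo (N m : ℕ) : ℤ := max 1 ((m : ℤ) - N)
noncomputable def hi (N m : ℕ) : ℤ := min (N : ℤ) ((m : ℤ) - 1)

lemma p_int (N m : ℕ) (t : ℝ) : p 3 N m t = ∑ x ∈ Icc (lo N m) (hi N m), e (t * ((ff m x : ℤ) : ℝ)) := by
  unfold Pool.Agent.W928.MW.p prs lo hi
  apply Finset.sum_nbij' (fun z : ℕ × ℕ => (z.1 : ℤ)) (fun x : ℤ => (x.toNat, ((m : ℤ) - x).toNat))
  · intro z hz
    rw [Finset.mem_filter, Finset.mem_product, Finset.mem_Icc, Finset.mem_Icc] at hz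
    rw [Finset.mem_Icc]
    omega
  · intro x hx
    rw [Finset.mem_Icc] at hx
    rw [Finset.mem_filter, Finset.mem_product, Finset.mem_Icc, Finset.mem_Icc]
    simp only
    omega
  · intro z hz
    rw [Finset.mem_filter, Finset.mem_product, Finset.mem_Icc, Finset.mem_Icc] at hz
    ext <;> simp only <;> omega
  · intro x hx
    rw [Finset.mem_Icc] at hx
    simp only
    omega
  · intro z hz
    rw [Finset.mem_filter, Finset.mem_product, Finset.mem_Icc, Finset.mem_Icc] at hz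
    have h1 : (m : ℤ) - (z.1 : ℤ) = (z.2 : ℤ) := by omega
    unfold ff
    rw [h1]
    push_cast
    rfl

lemma e_conj (x : ℝ) : (starRingEnd ℂ) (e x) = e (-x) := by
  unfold Pool.Agent.W928.MW.e
  rw [← Complex.exp_conj]
  congr 1
  simp only [map_mul, Complex.conj_ofReal, Complex.conj_I, map_ofNat]
  push_cast
  ring

/-- orthogonality, exact -/
lemma orthC (q : ℕ) (hq : 1 ≤ q) (β : ℝ) (D : ℤ) :
    ∑ b ∈ range q, e ((β + (b : ℝ) / (q : ℝ)) * (D : ℝ)) =
      if (q : ℤ) ∣ D then (q : ℂ) * e (β * (D : ℝ)) else 0 := by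
  have hq0 : (q : ℝ) ≠ 0 := by exact_mod_cast (by omega : q ≠ 0)
  have h1 : ∀ b ∈ range q, e ((β + (b : ℝ) / (q : ℝ)) * (D : ℝ)) =
      e (β * D) * e ((D : ℝ) / (q : ℝ)) ^ b := by
    intro b _
    rw [← e_nsmul, ← e_add]
    congr 1
    field_simp
  rw [Finset.sum_congr rfl h1, ← Finset.mul_sum]
  split_ifs with hd
  · obtain ⟨n, hn⟩ := hd
    have h2 : e ((D : ℝ) / (q : ℝ)) = 1 := by
      rw [hn]
      push_cast
      rw [mul_div_cancel_left₀ _ hq0]
      exact e_int n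
    rw [h2]
    simp only [one_pow, Finset.sum_const, Finset.card_range, nsmul_eq_mul, mul_one]
    ring
  · have h2 : e ((D : ℝ) / (q : ℝ)) ≠ 1 := by
      intro h
      obtain ⟨n, hn⟩ := e_eq_one h
      apply hd
      refine ⟨n, ?_⟩
      rw [div_eq_iff hq0] at hn
      have : (D : ℝ) = (((q : ℤ) * n : ℤ) : ℝ) := by
        rw [hn]; push_cast; ring
      exact_mod_cast this
    have h3 : ∑ b ∈ range q, e ((D : ℝ) / (q : ℝ)) ^ b = 0 := by
      rw [geom_sum_eq h2]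
      have h4 : e ((D : ℝ) / (q : ℝ)) ^ q = 1 := by
        rw [← e_nsmul]
        have : (q : ℝ) * ((D : ℝ) / (q : ℝ)) = (D : ℝ) := by field_simp
        rw [this]
        exact e_int D
      rw [h4]
      simp
    rw [h3, mul_zero]

/-- the inner sum -/
noncomputable def GG (N q m : ℕ) (β : ℝ) (u : ℤ) : ℂ :=
  ∑ x ∈ (Icc (max (lo N m) (lo N m - u)) (min (hi N m) (hi N m - u))).filter
    (fun x => (q : ℤ) ∣ (3 * m * u) * ((m - u) - 2 * x)),
    e (β * (((3 * m * u) * ((m - u) - 2 * x) : ℤ) : ℝ))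

lemma mom_m (N q m : ℕ) (hq : 1 ≤ q) (β : ℝ) :
    ∑ b ∈ range q, ‖p 3 N m (β + (b : ℝ) / (q : ℝ))‖ ^ 2 ≤
      q * ∑ u ∈ Icc (-(N : ℤ)) N, ‖GG N q m β u‖ := by
  classical
  set I := Icc (lo N m) (hi N m) with hI
  have hIN : ∀ x ∈ I, 1 ≤ x ∧ x ≤ N := by
    intro x hx
    rw [hI, Finset.mem_Icc] at hx
    unfold lo hi at hx
    omega
  have h1 : ((∑ b ∈ range q, ‖p 3 N m (β + (b : ℝ) / (q : ℝ))‖ ^ 2 : ℝ) : ℂ) =
      (q : ℂ) * ∑ u ∈ Icc (-(N : ℤ)) N, GG N q m β u := by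
    have h2 : ∀ b ∈ range q, ((‖p 3 N m (β + (b : ℝ) / (q : ℝ))‖ ^ 2 : ℝ) : ℂ) =
        ∑ x ∈ I, ∑ x' ∈ I, e ((β + (b : ℝ) / (q : ℝ)) * ((ff m x - ff m x' : ℤ) : ℝ)) := by
      intro b _
      have h3 : ((‖p 3 N m (β + (b : ℝ) / (q : ℝ))‖ ^ 2 : ℝ) : ℂ) =
          p 3 N m (β + (b : ℝ) / (q : ℝ)) * (starRingEnd ℂ) (p 3 N m (β + (b : ℝ) / (q : ℝ))) := by
        rw [Complex.mul_conj, Complex.normSq_eq_norm_sq]
      rw [h3, p_int, map_sum, Finset.sum_mul_sum]
      refine Finset.sum_congr rfl fun x _ => Finset.sum_congr rfl fun x' _ => ?_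
      rw [e_conj, ← e_add]
      congr 1
      push_cast
      ring
    rw [Complex.ofReal_sum, Finset.sum_congr rfl h2, Finset.sum_comm]
    have h4 : ∀ x ∈ I, ∑ b ∈ range q, ∑ x' ∈ I,
        e ((β + (b : ℝ) / (q : ℝ)) * ((ff m x - ff m x' : ℤ) : ℝ)) =
        ∑ u ∈ Icc (-(N : ℤ)) N, if x + u ∈ I ∧ (q : ℤ) ∣ ff m x - ff m (x + u) then
          (q : ℂ) * e (β * ((ff m x - ff m (x + u) : ℤ) : ℝ)) else 0 := by
      intro x hx
      rw [Finset.sum_comm]
      have h5 : ∀ x' ∈ I, ∑ b ∈ range q, e ((β + (b : ℝ) / (q : ℝ)) * ((ff m x - ff m x' : ℤ) : ℝ)) =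
          if (q : ℤ) ∣ ff m x - ff m x' then (q : ℂ) * e (β * ((ff m x - ff m x' : ℤ) : ℝ)) else 0 :=
        fun x' _ => orthC q hq β _
      rw [Finset.sum_congr rfl h5]
      have h6 : ∑ u ∈ Icc (-(N : ℤ)) N, (if x + u ∈ I ∧ (q : ℤ) ∣ ff m x - ff m (x + u) then
          (q : ℂ) * e (β * ((ff m x - ff m (x + u) : ℤ) : ℝ)) else 0) =
          ∑ u ∈ (Icc (-(N : ℤ)) N).filter (fun u => x + u ∈ I),
            (if (q : ℤ) ∣ ff m x - ff m (x + u) then
              (q : ℂ) * e (β * ((ff m x - ff m (x + u) : ℤ) : ℝ)) else 0) := by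
        rw [Finset.sum_filter]
        refine Finset.sum_congr rfl fun u _ => ?_
        by_cases h : x + u ∈ I <;> simp [h]
      rw [h6]
      apply Finset.sum_nbij' (fun x' : ℤ => x' - x) (fun u : ℤ => x + u)
      · intro x' hx'
        have a1 := hIN x hx
        have a2 := hIN x' hx'
        rw [Finset.mem_filter, Finset.mem_Icc]
        refine ⟨by omega, ?_⟩
        have : x + (x' - x) = x' := by ring
        rwa [this]
      · intro u hu
        exact (Finset.mem_filter.1 hu).2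
      · intro x' _
        ring
      · intro u _
        ring
      · intro x' _
        have : x + (x' - x) = x' := by ring
        rw [this]
    rw [Finset.sum_congr rfl h4, Finset.sum_comm, Finset.mul_sum]
    refine Finset.sum_congr rfl fun u _ => ?_
    unfold GG
    rw [Finset.mul_sum]
    have h7 : (Icc (max (lo N m) (lo N m - u)) (min (hi N m) (hi N m - u))).filter
        (fun x => (q : ℤ) ∣ (3 * m * u) * ((m - u) - 2 * x)) =
        I.filter (fun x => x + u ∈ I ∧ (q : ℤ) ∣ ff m x - ff m (x + u)) := by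
      ext x
      rw [Finset.mem_filter, Finset.mem_filter, ff_sub, hI, Finset.mem_Icc, Finset.mem_Icc,
        Finset.mem_Icc]
      constructor
      · rintro ⟨a, b⟩
        exact ⟨by omega, by omega, b⟩
      · rintro ⟨a, b, c⟩
        exact ⟨by omega, c⟩
    rw [h7, Finset.sum_filter]
    refine Finset.sum_congr rfl fun x _ => ?_
    rw [ff_sub]
  have h2 : (∑ b ∈ range q, ‖p 3 N m (β + (b : ℝ) / (q : ℝ))‖ ^ 2) =
      ‖(q : ℂ) * ∑ u ∈ Icc (-(N : ℤ)) N, GG N q m β u‖ := by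
    rw [← h1, Complex.norm_real, Real.norm_of_nonneg (Finset.sum_nonneg fun b _ => sq_nonneg _)]
  rw [h2, norm_mul, Complex.norm_natCast]
  exact mul_le_mul_of_nonneg_left (norm_sum_le _ _) (Nat.cast_nonneg q)

/-- the term `u = 0` -/
lemma GG_le (N q m : ℕ) (β : ℝ) (u : ℤ) : ‖GG N q m β u‖ ≤ N := by
  unfold GG
  refine (norm_sum_le _ _).trans ?_
  rw [Finset.sum_congr rfl fun x _ => e_norm _, Finset.sum_const, nsmul_eq_mul, mul_one]
  have h1 : ((Icc (max (lo N m) (lo N m - u)) (min (hi N m) (hi N m - u))).filter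
    (fun x => (q : ℤ) ∣ (3 * m * u) * ((m - u) - 2 * x))).card ≤ N := by
    refine (Finset.card_filter_le _ _).trans ?_
    rw [Int.card_Icc]
    unfold lo hi
    omega
  exact_mod_cast h1

lemma GG_zero (N q : ℕ) (β : ℝ) (u : ℤ) : GG N q 0 β u = 0 := by
  unfold GG
  apply Finset.sum_eq_zero
  intro x hx
  rw [Finset.mem_filter, Finset.mem_Icc] at hx
  unfold lo hi at hx
  omega

lemma GG_ap (N q m : ℕ) (hq : 1 ≤ q) (hm : 1 ≤ m) (β : ℝ) (u : ℤ) (hu : u ≠ 0) :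
    ∃ l : ℕ, (l * Int.gcd (3 * m * u) q = (3 * m * u : ℤ).natAbs ∨
        l * Int.gcd (3 * m * u) q = 2 * (3 * m * u : ℤ).natAbs) ∧
      ‖GG N q m β u‖ ≤ KK (2 * N * (Int.gcd (3 * m * u) q : ℝ) / q + 1) (l * (β * q)) := by
  unfold GG
  apply ap q N hq
  · have : (m : ℤ) ≠ 0 := by omega
    positivity
  · unfold lo hi
    omega

/-- the pairs `(m, u)` -/
noncomputable def PP (N : ℕ) : Finset (ℕ × ℤ) := (Icc 1 (2 * N)) ×ˢ ((Icc (-(N : ℤ)) N).erase 0)

/-- `|3 m u|` -/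
def cc (z : ℕ × ℤ) : ℕ := (3 * (z.1 : ℤ) * z.2).natAbs

lemma cc_pos {N : ℕ} {z : ℕ × ℤ} (hz : z ∈ PP N) : 1 ≤ cc z ∧ cc z ≤ 6 * N ^ 2 := by
  unfold PP at hz
  rw [Finset.mem_product, Finset.mem_Icc, Finset.mem_erase, Finset.mem_Icc] at hz
  obtain ⟨⟨h1, h2⟩, h3, h4, h5⟩ := hz
  unfold cc
  rw [Int.natAbs_mul, Int.natAbs_mul, Int.natAbs_natCast]
  have h6 : 1 ≤ z.2.natAbs := Int.natAbs_pos.2 h3
  have h7 : z.2.natAbs ≤ N := by omega
  have e3 : (3 : ℤ).natAbs = 3 := rfl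
  rw [e3]
  constructor
  · exact Nat.mul_pos (by omega) h6
  · calc 3 * z.1 * z.2.natAbs ≤ 3 * (2 * N) * N := Nat.mul_le_mul (by omega) h7
      _ = 6 * N ^ 2 := by ring

lemma card_cc (N Δ n : ℕ) (hΔ : ∀ n : ℕ, 1 ≤ n → n ≤ 12 * N ^ 2 → n.divisors.card ≤ Δ)
    (hn : n ≤ 12 * N ^ 2) : ((PP N).filter (fun z => cc z = n)).card ≤ 2 * Δ := by
  classical
  rcases Nat.eq_zero_or_pos n with h0 | h0
  · have : (PP N).filter (fun z => cc z = n) = ∅ := by
      rw [Finset.filter_eq_empty_iff]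
      intro z hz
      have := (cc_pos hz).1
      omega
    rw [this, Finset.card_empty]
    exact Nat.zero_le _
  · have h1 : (PP N).filter (fun z => cc z = n) ⊆
        (n.divisors ×ˢ ({1, -1} : Finset ℤ)).image (fun d => (d.1, d.2 * ((n / (3 * d.1) : ℕ) : ℤ))) := by
      intro z hz
      rw [Finset.mem_filter] at hz
      obtain ⟨hz1, hz2⟩ := hz
      unfold PP at hz1
      rw [Finset.mem_product, Finset.mem_Icc, Finset.mem_erase, Finset.mem_Icc] at hz1
      unfold cc at hz2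
      rw [Int.natAbs_mul, Int.natAbs_mul, Int.natAbs_natCast] at hz2
      have e3 : (3 : ℤ).natAbs = 3 := rfl
      rw [e3] at hz2
      have h3 : n / (3 * z.1) = z.2.natAbs := by
        rw [← hz2]
        exact Nat.mul_div_cancel_left _ (by omega)
      rw [Finset.mem_image]
      refine ⟨(z.1, if 0 ≤ z.2 then 1 else -1), ?_, ?_⟩
      · rw [Finset.mem_product, Nat.mem_divisors]
        refine ⟨⟨⟨3 * z.2.natAbs, ?_⟩, by omega⟩, ?_⟩
        · rw [← hz2]; ring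
        · simp only
          split_ifs <;> simp
      · ext
        · rfl
        · simp only
          rw [h3]
          split_ifs <;> omega
    refine (Finset.card_le_card h1).trans (Finset.card_image_le.trans ?_)
    rw [Finset.card_product]
    have h2 : ({1, -1} : Finset ℤ).card ≤ 2 := Finset.card_le_two
    have h3 := hΔ n h0 hn
    nlinarith

/-- the sum over all pairs -/
lemma sum_pairs (N q Δ : ℕ) (hq : 1 ≤ q)
    (hΔ : ∀ n : ℕ, 1 ≤ n → n ≤ 12 * N ^ 2 → n.divisors.card ≤ Δ) (β : ℝ) :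
    ∑ z ∈ PP N, ‖GG N q z.1 β z.2‖ ≤ ∑ g ∈ q.divisors, ∑ l ∈ range (12 * N ^ 2 / g + 1),
      (4 * (Δ : ℝ)) * KK (2 * N * (g : ℝ) / q + 1) (0 + (l : ℝ) * (β * q)) := by
  classical
  have hK : ∀ (g l : ℕ), 0 ≤ KK (2 * N * (g : ℝ) / q + 1) (0 + (l : ℝ) * (β * q)) := fun g l =>
    KK_nonneg (by positivity) _
  have h1 : ∀ z ∈ PP N, ‖GG N q z.1 β z.2‖ ≤ ∑ g ∈ q.divisors, ∑ l ∈ range (12 * N ^ 2 / g + 1),
      (if l * g = cc z ∨ l * g = 2 * cc z then
        KK (2 * N * (g : ℝ) / q + 1) (0 + (l : ℝ) * (β * q)) else 0) := by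
    intro z hz
    have hz' := hz
    unfold PP at hz'
    rw [Finset.mem_product, Finset.mem_Icc, Finset.mem_erase] at hz'
    obtain ⟨l, hl, hle⟩ := GG_ap N q z.1 hq hz'.1.1 β z.2 hz'.2.1
    have hc := cc_pos hz
    set g := Int.gcd (3 * (z.1 : ℤ) * z.2) q with hg
    have hgq : g ∣ q := by
      have := Int.gcd_dvd_right (3 * (z.1 : ℤ) * z.2) q
      exact_mod_cast this
    have hg0 : 0 < g := Nat.pos_of_dvd_of_pos hgq (by omega)
    have hgm : g ∈ q.divisors := Nat.mem_divisors.2 ⟨hgq, by omega⟩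
    have hlm : l ∈ range (12 * N ^ 2 / g + 1) := by
      rw [Finset.mem_range]
      have h2 : l * g ≤ 12 * N ^ 2 := by
        unfold cc at hc
        rcases hl with h | h <;> rw [h] <;> omega
      have := (Nat.le_div_iff_mul_le hg0).2 h2
      omega
    calc ‖GG N q z.1 β z.2‖ ≤ (if l * g = cc z ∨ l * g = 2 * cc z then
          KK (2 * N * (g : ℝ) / q + 1) (0 + (l : ℝ) * (β * q)) else 0) := by
          rw [if_pos (by unfold cc; exact hl), zero_add]
          exact hle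
      _ ≤ ∑ l ∈ range (12 * N ^ 2 / g + 1), (if l * g = cc z ∨ l * g = 2 * cc z then
          KK (2 * N * (g : ℝ) / q + 1) (0 + (l : ℝ) * (β * q)) else 0) :=
          Finset.single_le_sum (f := fun l : ℕ => (if l * g = cc z ∨ l * g = 2 * cc z then
            KK (2 * N * (g : ℝ) / q + 1) (0 + (l : ℝ) * (β * q)) else 0))
            (fun l' _ => by split_ifs; exacts [hK g l', le_refl _]) hlm
      _ ≤ _ := Finset.single_le_sum (f := fun g : ℕ => ∑ l ∈ range (12 * N ^ 2 / g + 1),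
            (if l * g = cc z ∨ l * g = 2 * cc z then
            KK (2 * N * (g : ℝ) / q + 1) (0 + (l : ℝ) * (β * q)) else 0))
            (fun g' _ => Finset.sum_nonneg fun l' _ => by
              split_ifs; exacts [hK g' l', le_refl _]) hgm
  refine (Finset.sum_le_sum h1).trans ?_
  rw [Finset.sum_comm]
  refine Finset.sum_le_sum fun g hg => ?_
  rw [Finset.sum_comm]
  refine Finset.sum_le_sum fun l hl => ?_
  have hg' := Nat.mem_divisors.1 hg
  have hg0 : 0 < g := Nat.pos_of_dvd_of_pos hg'.1 (by omega)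
  have hlg : l * g ≤ 12 * N ^ 2 := by
    have := Finset.mem_range.1 hl
    exact (Nat.le_div_iff_mul_le hg0).1 (by omega)
  rw [← Finset.sum_filter, Finset.sum_const, nsmul_eq_mul]
  refine mul_le_mul_of_nonneg_right ?_ (hK g l)
  have h2 : ((PP N).filter (fun z => l * g = cc z ∨ l * g = 2 * cc z)).card ≤ 4 * Δ := by
    have h3 : (PP N).filter (fun z => l * g = cc z ∨ l * g = 2 * cc z) ⊆
        (PP N).filter (fun z => cc z = l * g) ∪ (PP N).filter (fun z => cc z = l * g / 2) := by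
      intro z hz
      rw [Finset.mem_filter] at hz
      rw [Finset.mem_union, Finset.mem_filter, Finset.mem_filter]
      rcases hz.2 with h | h
      · left; exact ⟨hz.1, h.symm⟩
      · right; exact ⟨hz.1, by omega⟩
    refine (Finset.card_le_card h3).trans ((Finset.card_union_le _ _).trans ?_)
    have h4 := card_cc N Δ (l * g) hΔ hlg
    have h5 := card_cc N Δ (l * g / 2) hΔ ((Nat.div_le_self _ _).trans hlg)
    omega
  exact_mod_cast h2

/-- the moment -/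
theorem mom (N q Δ : ℕ) (hq : 1 ≤ q)
    (hΔ : ∀ n : ℕ, 1 ≤ n → n ≤ 12 * N ^ 2 → n.divisors.card ≤ Δ) (β : ℝ) :
    ∑ b ∈ range q, Q 3 N (β + (b : ℝ) / (q : ℝ)) ≤ q * (2 * (N : ℝ) ^ 2 +
      ∑ g ∈ q.divisors, ∑ l ∈ range (12 * N ^ 2 / g + 1),
      (4 * (Δ : ℝ)) * KK (2 * N * (g : ℝ) / q + 1) (0 + (l : ℝ) * (β * q))) := by
  classical
  unfold Pool.Agent.W928.MW.Q
  rw [Finset.sum_comm]
  have h1 : ∑ m ∈ range (2 * N + 1), ∑ b ∈ range q, ‖p 3 N m (β + (b : ℝ) / (q : ℝ))‖ ^ 2 ≤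
      ∑ m ∈ range (2 * N + 1), q * ∑ u ∈ Icc (-(N : ℤ)) N, ‖GG N q m β u‖ :=
    Finset.sum_le_sum fun m _ => mom_m N q m hq β
  refine h1.trans ?_
  rw [← Finset.mul_sum]
  refine mul_le_mul_of_nonneg_left ?_ (Nat.cast_nonneg q)
  have h2 : range (2 * N + 1) = insert 0 (Icc 1 (2 * N)) := by
    ext m
    rw [Finset.mem_range, Finset.mem_insert, Finset.mem_Icc]
    omega
  rw [h2, Finset.sum_insert (by simp)]
  have h3 : ∑ u ∈ Icc (-(N : ℤ)) N, ‖GG N q 0 β u‖ = 0 :=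
    Finset.sum_eq_zero fun u _ => by rw [GG_zero, norm_zero]
  rw [h3, zero_add]
  have h4 : ∀ m ∈ Icc 1 (2 * N), ∑ u ∈ Icc (-(N : ℤ)) N, ‖GG N q m β u‖ ≤
      (N : ℝ) + ∑ u ∈ (Icc (-(N : ℤ)) N).erase 0, ‖GG N q m β u‖ := by
    intro m _
    have h5 : (0 : ℤ) ∈ Icc (-(N : ℤ)) N := by
      rw [Finset.mem_Icc]; omega
    rw [← Finset.add_sum_erase _ _ h5]
    have := GG_le N q m β 0
    linarith
  refine (Finset.sum_le_sum h4).trans ?_
  rw [Finset.sum_add_distrib, Finset.sum_const, Nat.card_Icc, nsmul_eq_mul]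
  have h6 : ∑ m ∈ Icc 1 (2 * N), ∑ u ∈ (Icc (-(N : ℤ)) N).erase 0, ‖GG N q m β u‖ =
      ∑ z ∈ PP N, ‖GG N q z.1 β z.2‖ := by
    unfold PP
    rw [Finset.sum_product]
  rw [h6]
  have h7 := sum_pairs N q Δ hq hΔ β
  have h8 : (((2 * N + 1 - 1 : ℕ) : ℝ)) * N = 2 * (N : ℝ) ^ 2 := by
    have : 2 * N + 1 - 1 = 2 * N := by omega
    rw [this]; push_cast; ring
  rw [h8]
  linarith

end Pool.Agent.K9h90.CN
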