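import Pool.Agent.K9h90.CN.L2

/-!
# Project CN: the bound for the fourth moment over the numerators (helper90)
-/

set_option autoImplicit false

open Finset

namespace Pool.Agent.K9h90.CN

open Pool.Agent.W928.MW (e sm prs p Q e_add e_norm)
open Pool.Agent.H807R2.Dav (ee KK KK_nonneg KK_neg KK_le geo_bound vino)

/-- approximation with a denominator comparable to `1 / |θ|` -/
lemma approx (θ : ℝ) (h0 : 0 < |θ|) (h1 : |θ| ≤ 1 / 2) : ∃ (r : ℕ) (c : ℤ), 1 ≤ r ∧ IsCoprime c (r : ℤ) ∧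
    |θ - c / r| ≤ 1 / (r : ℝ) ^ 2 ∧ 1 / (2 * |θ|) ≤ r ∧ (r : ℝ) ≤ 2 / |θ| := by
  set n : ℕ := ⌈1 / |θ|⌉₊ with hn
  have hn1 : 1 / |θ| ≤ n := Nat.le_ceil _
  have hn2 : (n : ℝ) < 1 / |θ| + 1 := Nat.ceil_lt_add_one (by positivity)
  have h2 : (2 : ℝ) ≤ 1 / |θ| := by
    rw [le_div_iff₀ h0]; linarith
  have hnpos : 0 < n := by
    have : (0 : ℝ) < n := by linarith
    exact_mod_cast this
  obtain ⟨ρ, hρ1, hρ2⟩ := Real.exists_rat_abs_sub_le_and_den_le θ hnpos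
  have hden : 0 < ρ.den := ρ.den_pos
  have hdR : (0 : ℝ) < (ρ.den : ℝ) := by exact_mod_cast hden
  have hd1 : (1 : ℝ) ≤ (ρ.den : ℝ) := by exact_mod_cast hden
  have hdn : (ρ.den : ℝ) ≤ n := by exact_mod_cast hρ2
  have hρ : (ρ : ℝ) = (ρ.num : ℝ) / (ρ.den : ℝ) := by
    rw [Rat.cast_def]
  have hn3 : 1 / ((n : ℝ) + 1) < |θ| := by
    rw [div_lt_iff₀ (by positivity)]
    have : 1 / |θ| * |θ| = 1 := by field_simp
    nlinarith
  have h3 : 1 / (((n : ℝ) + 1) * (ρ.den : ℝ)) ≤ 1 / ((n : ℝ) + 1) := by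
    apply one_div_le_one_div_of_le (by positivity)
    nlinarith
  have hnum : ρ.num ≠ 0 := by
    intro h
    have h4 : (ρ : ℝ) = 0 := by rw [hρ, h]; simp
    rw [h4, sub_zero] at hρ1
    linarith
  refine ⟨ρ.den, ρ.num, hden, ?_, ?_, ?_, ?_⟩
  · rw [Int.isCoprime_iff_gcd_eq_one]
    exact ρ.reduced
  · rw [← hρ]
    refine hρ1.trans ?_
    apply one_div_le_one_div_of_le (by positivity)
    nlinarith
  · have h5 : 1 / (ρ.den : ℝ) ≤ 2 * |θ| := by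
      have h6 : (1 : ℝ) ≤ |(ρ.num : ℝ)| := by
        rw [← Int.cast_abs]
        exact_mod_cast Int.one_le_abs hnum
      have h7 : 1 / (ρ.den : ℝ) ≤ |(ρ : ℝ)| := by
        rw [hρ, abs_div, abs_of_pos hdR]
        exact div_le_div_of_nonneg_right h6 hdR.le
      have h8 : |(ρ : ℝ)| ≤ |θ| + |θ - ρ| := by
        have h9 : (ρ : ℝ) = θ - (θ - ρ) := by ring
        calc |(ρ : ℝ)| = |θ - (θ - ρ)| := by rw [← h9]
          _ ≤ |θ| + |θ - ρ| := abs_sub _ _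
      linarith
    rw [div_le_iff₀ (by positivity)]
    rw [div_le_iff₀ hdR] at h5
    linarith
  · have h5 : 2 / |θ| = 1 / |θ| + 1 / |θ| := by ring
    rw [h5]
    linarith

/-- the sum of one divisor -/
lemma one_div_sum (N q g r : ℕ) (hq : 1 ≤ q) (hqN : q ≤ N) (hg : g ∣ q) (hr : 1 ≤ r) {c : ℤ}
    (hcop : IsCoprime c (r : ℤ)) {θ : ℝ} (hθ : |θ - c / r| ≤ 1 / (r : ℝ) ^ 2) :
    ∑ l ∈ range (12 * N ^ 2 / g + 1), KK (2 * N * (g : ℝ) / q + 1) (0 + (l : ℝ) * θ) ≤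
      1521 * (1 + Real.log r) * ((N : ℝ) ^ 3 / (q * r) + (N : ℝ) ^ 2 + r) := by
  have hg0 : 0 < g := Nat.pos_of_dvd_of_pos hg (by omega)
  have hgq : g ≤ q := Nat.le_of_dvd (by omega) hg
  have hgR : (1 : ℝ) ≤ g := by exact_mod_cast hg0
  have hqR : (1 : ℝ) ≤ q := by exact_mod_cast hq
  have hgqR : (g : ℝ) ≤ q := by exact_mod_cast hgq
  have hqNR : (q : ℝ) ≤ N := by exact_mod_cast hqN
  have hNR : (1 : ℝ) ≤ N := by linarith
  have hrR : (1 : ℝ) ≤ r := by exact_mod_cast hr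
  have hL : 0 ≤ Real.log r := Real.log_nonneg hrR
  have hgpos : (0 : ℝ) < g := by linarith
  have hqpos : (0 : ℝ) < q := by linarith
  have hrpos : (0 : ℝ) < r := by linarith
  have h1 := vino hr hcop hθ (M := 2 * N * (g : ℝ) / q + 1) (by positivity) 0 (12 * N ^ 2 / g + 1)
  refine h1.trans ?_
  have hP : (((12 * N ^ 2 / g + 1 : ℕ)) : ℝ) ≤ 13 * (N : ℝ) ^ 2 / g := by
    push_cast
    have h2 : ((12 * N ^ 2 / g : ℕ) : ℝ) ≤ 12 * (N : ℝ) ^ 2 / g := by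
      have := Nat.cast_div_le (α := ℝ) (m := 12 * N ^ 2) (n := g)
      push_cast at this
      exact this
    have h3 : (1 : ℝ) ≤ (N : ℝ) ^ 2 / g := by
      rw [le_div_iff₀ hgpos]; nlinarith
    have h4 : 13 * (N : ℝ) ^ 2 / g = 12 * (N : ℝ) ^ 2 / g + (N : ℝ) ^ 2 / g := by ring
    linarith
  have hM : 2 * N * (g : ℝ) / q + 1 ≤ 3 * (N * g / q) := by
    have h3 : (1 : ℝ) ≤ N * g / q := by
      rw [le_div_iff₀ hqpos]; nlinarith
    have h4 : 2 * (N : ℝ) * g / q = 2 * (N * g / q) := by ring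
    linarith
  have h5 : ((((12 * N ^ 2 / g + 1 : ℕ)) : ℝ) / r + 1) * (39 * (2 * N * (g : ℝ) / q + 1) +
      3 * r * (1 + Real.log r)) ≤ (13 * (N : ℝ) ^ 2 / g / r + 1) * (39 * (3 * (N * g / q)) +
      3 * r * (1 + Real.log r)) := by
    gcongr
  refine h5.trans ?_
  have h6 : (13 * (N : ℝ) ^ 2 / g / r + 1) * (39 * (3 * (N * g / q)) + 3 * r * (1 + Real.log r)) =
      1521 * ((N : ℝ) ^ 3 / (q * r)) + 39 * (1 + Real.log r) * ((N : ℝ) ^ 2 / g) +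
        117 * (N * (g / q)) + 3 * (1 + Real.log r) * r := by
    field_simp
    ring
  rw [h6]
  have h7 : (N : ℝ) ^ 2 / g ≤ (N : ℝ) ^ 2 := div_le_self (by positivity) hgR
  have h8 : (N : ℝ) * (g / q) ≤ (N : ℝ) ^ 2 := by
    have : (g : ℝ) / q ≤ 1 := by rw [div_le_one hqpos]; exact hgqR
    nlinarith
  have h9 : 1521 * ((N : ℝ) ^ 3 / (q * r)) ≤ 1521 * (1 + Real.log r) * ((N : ℝ) ^ 3 / (q * r)) := by
    have : 0 ≤ 1521 * Real.log r * ((N : ℝ) ^ 3 / (q * r)) := by positivity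
    linarith
  have h10 : 39 * (1 + Real.log r) * ((N : ℝ) ^ 2 / g) ≤ 39 * (1 + Real.log r) * (N : ℝ) ^ 2 :=
    mul_le_mul_of_nonneg_left h7 (by positivity)
  have h11 : 117 * ((N : ℝ) * (g / q)) ≤ 117 * (1 + Real.log r) * (N : ℝ) ^ 2 := by
    have : 0 ≤ 117 * Real.log r * (N : ℝ) ^ 2 := by positivity
    linarith
  have h12 : 0 ≤ (1 + Real.log r) * (N : ℝ) ^ 2 := by positivity
  have h13 : 0 ≤ (1 + Real.log r) * (r : ℝ) := by positivity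
  linarith

/-- **the fourth moment**, `1 / (N q²) ≤ |β| ≤ 1 / (2 q)` -/
theorem large (N q Δ : ℕ) (hq : 2 ≤ q) (hqN : q ≤ N)
    (hΔ : ∀ n : ℕ, 1 ≤ n → n ≤ 12 * N ^ 2 → n.divisors.card ≤ Δ) (β : ℝ)
    (hβ : |β| ≤ 1 / (2 * (q : ℝ))) (hβ' : 1 / (N * (q : ℝ) ^ 2) ≤ |β|) :
    (2 * (N : ℝ) + 1) * ∑ b ∈ range q, Q 3 N (β + (b : ℝ) / (q : ℝ)) ≤
      54774 * (Δ : ℝ) ^ 2 * (1 + Real.log (2 * (N : ℝ) ^ 2)) *
        (q * (N : ℝ) ^ 4 * (|β| + 1 / N)) := by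
  have hqR : (2 : ℝ) ≤ q := by exact_mod_cast hq
  have hqNR : (q : ℝ) ≤ N := by exact_mod_cast hqN
  have hqpos : (0 : ℝ) < q := by linarith
  have hNR : (2 : ℝ) ≤ N := by linarith
  have hNpos : (0 : ℝ) < N := by linarith
  have hβ0 : 0 < |β| := lt_of_lt_of_le (by positivity) hβ'
  set θ : ℝ := β * q with hθ
  have hθabs : |θ| = |β| * q := by rw [hθ, abs_mul, abs_of_pos hqpos]
  have hθ0 : 0 < |θ| := by rw [hθabs]; positivity
  have hθ1 : |θ| ≤ 1 / 2 := by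
    rw [hθabs]
    have h1 : |β| * q ≤ 1 / (2 * (q : ℝ)) * q := mul_le_mul_of_nonneg_right hβ hqpos.le
    have h2 : 1 / (2 * (q : ℝ)) * q = 1 / 2 := by field_simp
    linarith
  obtain ⟨r, c, hr, hcop, hc, hr1, hr2⟩ := approx θ hθ0 hθ1
  have hrR : (1 : ℝ) ≤ r := by exact_mod_cast hr
  have hrpos : (0 : ℝ) < r := by linarith
  have hmom := mom N q Δ (by omega) hΔ β
  have hΔ1 : 1 ≤ Δ := by
    have h1 := hΔ 1 (le_refl _) (by nlinarith)
    simpa using h1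
  have hΔR : (1 : ℝ) ≤ Δ := by exact_mod_cast hΔ1
  have hlogr : 0 ≤ Real.log r := Real.log_nonneg hrR
  set X : ℝ := (N : ℝ) ^ 3 / (q * r) + (N : ℝ) ^ 2 + r with hX
  have hX0 : 0 ≤ X := by positivity
  have h1 : ∑ g ∈ q.divisors, ∑ l ∈ range (12 * N ^ 2 / g + 1),
      (4 * (Δ : ℝ)) * KK (2 * N * (g : ℝ) / q + 1) (0 + (l : ℝ) * (β * q)) ≤
      6084 * (Δ : ℝ) ^ 2 * (1 + Real.log r) * X := by
    have h2 : ∀ g ∈ q.divisors, ∑ l ∈ range (12 * N ^ 2 / g + 1),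
        (4 * (Δ : ℝ)) * KK (2 * N * (g : ℝ) / q + 1) (0 + (l : ℝ) * (β * q)) ≤
        4 * (Δ : ℝ) * (1521 * (1 + Real.log r) * X) := by
      intro g hg
      rw [← Finset.mul_sum]
      refine mul_le_mul_of_nonneg_left ?_ (by positivity)
      exact one_div_sum N q g r (by omega) hqN (Nat.mem_divisors.1 hg).1 hr hcop hc
    refine (Finset.sum_le_sum h2).trans ?_
    rw [Finset.sum_const, nsmul_eq_mul]
    have h3 : (q.divisors.card : ℝ) ≤ Δ := by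
      have : q.divisors.card ≤ Δ := hΔ q (by omega) (by nlinarith)
      exact_mod_cast this
    calc (q.divisors.card : ℝ) * (4 * (Δ : ℝ) * (1521 * (1 + Real.log r) * X)) ≤
          Δ * (4 * (Δ : ℝ) * (1521 * (1 + Real.log r) * X)) :=
          mul_le_mul_of_nonneg_right h3 (by positivity)
      _ = _ := by ring
  have h2 : 2 * (N : ℝ) ^ 2 ≤ 2 * (Δ : ℝ) ^ 2 * (1 + Real.log r) * X := by
    have h3 : (N : ℝ) ^ 2 ≤ X := by
      rw [hX]
      have : 0 ≤ (N : ℝ) ^ 3 / (q * r) := by positivity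
      linarith
    have h4 : 1 ≤ (Δ : ℝ) ^ 2 * (1 + Real.log r) := by
      have h5 : 1 ≤ (Δ : ℝ) ^ 2 := one_le_pow₀ hΔR
      nlinarith
    calc 2 * (N : ℝ) ^ 2 ≤ 2 * (1 * X) := by linarith
      _ ≤ 2 * ((Δ : ℝ) ^ 2 * (1 + Real.log r) * X) := by
          have := mul_le_mul_of_nonneg_right h4 hX0
          linarith
      _ = _ := by ring
  have h3 : ∑ b ∈ range q, Q 3 N (β + (b : ℝ) / (q : ℝ)) ≤
      q * (6086 * (Δ : ℝ) ^ 2 * (1 + Real.log r) * X) := by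
    refine hmom.trans (mul_le_mul_of_nonneg_left ?_ hqpos.le)
    linarith
  -- the value of `X`
  have hrN : (r : ℝ) ≤ 2 * (N * q) := by
    refine hr2.trans ?_
    rw [div_le_iff₀ hθ0, hθabs]
    rw [div_le_iff₀ (by positivity)] at hβ'
    nlinarith
  have hlog : Real.log r ≤ Real.log (2 * (N : ℝ) ^ 2) := by
    apply Real.log_le_log hrpos
    refine hrN.trans ?_
    nlinarith
  have hX2 : (q : ℝ) * X ≤ 3 * (q * (N : ℝ) ^ 3 * (|β| + 1 / N)) := by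
    have h4 : 1 / (r : ℝ) ≤ 2 * (|β| * q) := by
      rw [hθabs] at hr1
      rw [div_le_iff₀ (by positivity)] at hr1
      rw [div_le_iff₀ hrpos]
      linarith
    have h5 : (q : ℝ) * ((N : ℝ) ^ 3 / (q * r)) ≤ 2 * (q * (N : ℝ) ^ 3 * |β|) := by
      have h6 : (q : ℝ) * ((N : ℝ) ^ 3 / (q * r)) = (N : ℝ) ^ 3 * (1 / r) := by
        field_simp
      rw [h6]
      calc (N : ℝ) ^ 3 * (1 / r) ≤ (N : ℝ) ^ 3 * (2 * (|β| * q)) :=
            mul_le_mul_of_nonneg_left h4 (by positivity)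
        _ = _ := by ring
    have h6 : (q : ℝ) * r ≤ 2 * (q * (N : ℝ) ^ 2) := by
      have : (r : ℝ) ≤ 2 * (N : ℝ) ^ 2 := hrN.trans (by nlinarith)
      nlinarith
    have h7 : 3 * ((q : ℝ) * (N : ℝ) ^ 3 * (|β| + 1 / N)) =
        3 * (q * (N : ℝ) ^ 3 * |β|) + 3 * (q * (N : ℝ) ^ 2) := by
      field_simp
    have h8 : 0 ≤ (q : ℝ) * (N : ℝ) ^ 3 * |β| := by positivity
    rw [hX, h7]
    linarith
  have h4 : (2 * (N : ℝ) + 1) ≤ 3 * N := by linarith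
  have hQ0 : 0 ≤ ∑ b ∈ range q, Q 3 N (β + (b : ℝ) / (q : ℝ)) :=
    Finset.sum_nonneg fun b _ => Pool.Agent.W928.MW.Q_nonneg _ _ _
  calc (2 * (N : ℝ) + 1) * ∑ b ∈ range q, Q 3 N (β + (b : ℝ) / (q : ℝ))
      ≤ 3 * N * (q * (6086 * (Δ : ℝ) ^ 2 * (1 + Real.log r) * X)) :=
        mul_le_mul h4 h3 hQ0 (by positivity)
    _ = 18258 * (Δ : ℝ) ^ 2 * N * ((1 + Real.log r) * (q * X)) := by ring
    _ ≤ 18258 * (Δ : ℝ) ^ 2 * N * ((1 + Real.log (2 * (N : ℝ) ^ 2)) *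
        (3 * (q * (N : ℝ) ^ 3 * (|β| + 1 / N)))) := by
        refine mul_le_mul_of_nonneg_left ?_ (by positivity)
        refine mul_le_mul (by linarith) hX2 (by positivity) (by linarith)
    _ = _ := by ring

end Pool.Agent.K9h90.CN
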