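import Pool.Agent.K9h90.CN.Stm
import Pool.Agent.W928.MW.Dim
import Pool.Agent.W928.MW.Trans
import Pool.Agent.Y951.MW.Crt

/-!
# Project CN: the pointwise bound for `|β| ≤ 1 / (N q²)` from complete sums (helper90)
-/

set_option autoImplicit false

open Finset

namespace Pool.Agent.K9h90.CNS

open Pool.Agent.K9h90.CN (cs)
open Pool.Agent.W928.MW (e sm e_add e_norm e_lip e_int)
open Pool.Agent.Y951.MW (incompleteM psi_intM sum_valM)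

/-- partial summation -/
lemma abel (c w : ℕ → ℂ) (K : ℝ) (hK : 0 ≤ K) (n : ℕ) (hc : ∀ m, m ≤ n → ‖∑ x ∈ range m, c x‖ ≤ K)
    (hw : ∀ x, ‖w x‖ ≤ 1) :
    ‖∑ x ∈ range n, c x * w x‖ ≤ K * (1 + ∑ x ∈ range n, ‖w (x + 1) - w x‖) := by
  have h1 : ∑ x ∈ range n, c x * w x = (∑ x ∈ range n, c x) * w n -
      ∑ x ∈ range n, (∑ y ∈ range (x + 1), c y) * (w (x + 1) - w x) := by
    clear hc
    induction n with
    | zero => simp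
    | succ n ih =>
      rw [Finset.sum_range_succ (fun x => c x * w x) n, ih,
        Finset.sum_range_succ (fun x => (∑ y ∈ range (x + 1), c y) * (w (x + 1) - w x)) n,
        Finset.sum_range_succ c n]
      ring
  rw [h1]
  refine (norm_sub_le _ _).trans ?_
  have h2 : ‖(∑ x ∈ range n, c x) * w n‖ ≤ K := by
    rw [norm_mul]
    calc ‖∑ x ∈ range n, c x‖ * ‖w n‖ ≤ K * 1 := mul_le_mul (hc n le_rfl) (hw n) (norm_nonneg _) hK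
      _ = K := mul_one K
  have h3 : ‖∑ x ∈ range n, (∑ y ∈ range (x + 1), c y) * (w (x + 1) - w x)‖ ≤
      K * ∑ x ∈ range n, ‖w (x + 1) - w x‖ := by
    rw [Finset.mul_sum]
    refine (norm_sum_le _ _).trans (Finset.sum_le_sum fun x hx => ?_)
    rw [norm_mul]
    refine mul_le_mul_of_nonneg_right (hc _ ?_) (norm_nonneg _)
    have := Finset.mem_range.1 hx
    omega
  linarith

/-- incomplete sums of length at most `q` -/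
lemma inc (q : ℕ) (hq : 1 ≤ q) (a : ℤ) (Γ : ℝ) (hΓ : ∀ b : ℤ, ‖cs q a b‖ ≤ Γ) (η : ℝ) (m : ℕ) (hm : m ≤ q) :
    ‖∑ n ∈ Ioc 0 m, e ((a : ℝ) * (n : ℝ) ^ 3 / q + η * n)‖ ≤ Γ * (3 + Real.log q) := by
  haveI : NeZero q := ⟨by omega⟩
  have hqR : (0 : ℝ) < q := by exact_mod_cast hq
  have hΓ0 : 0 ≤ Γ := (norm_nonneg _).trans (hΓ 0)
  have he : ∀ x : ℝ, Pool.Agent.Y933.KD.e x = e x := by
    intro x
    unfold Pool.Agent.Y933.KD.e Pool.Agent.W928.MW.e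
    congr 1
    push_cast
    ring
  have h1 := incompleteM (M := q) (g := fun r => (ZMod.stdAddChar ((a : ZMod q) * r ^ 3) : ℂ)) (Γ := Γ) hΓ0
    (by
      intro b
      refine le_trans (le_of_eq ?_) (hΓ (b.val : ℤ))
      congr 1
      have h2 : ∀ r : ZMod q, (ZMod.stdAddChar ((a : ZMod q) * r ^ 3) : ℂ) * (ZMod.stdAddChar (b * r) : ℂ) =
          e (((a * ((r.val : ℕ) : ℤ) ^ 3 + (b.val : ℤ) * ((r.val : ℕ) : ℤ) : ℤ) : ℝ) / (q : ℝ)) := by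
        intro r
        rw [← AddChar.map_add_eq_mul]
        have h3 : (a : ZMod q) * r ^ 3 + b * r =
            (((a * ((r.val : ℕ) : ℤ) ^ 3 + (b.val : ℤ) * ((r.val : ℕ) : ℤ) : ℤ)) : ZMod q) := by
          push_cast
          rw [ZMod.natCast_zmod_val, ZMod.natCast_zmod_val]
        rw [h3, psi_intM, he]
      rw [Finset.sum_congr rfl fun r _ => h2 r]
      unfold Pool.Agent.K9h90.CN.cs
      have h4 : ∀ x : ℝ, Pool.Agent.K9h90.CN.e x = e x := fun x => rfl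
      simp only [h4]
      refine Finset.sum_bij' (fun r _ => r.val) (fun j _ => (j : ZMod q)) ?_ ?_ ?_ ?_ ?_
      · intro r _
        exact Finset.mem_range.2 (ZMod.val_lt r)
      · intro j _
        exact Finset.mem_univ _
      · intro r _
        exact ZMod.natCast_zmod_val r
      · intro j hj
        exact ZMod.val_cast_of_lt (Finset.mem_range.1 hj)
      · intro r _
        rfl) η (u := 0) (v := m) (N := q) hm
  have h5 : ∀ n ∈ Ioc 0 m, (ZMod.stdAddChar ((a : ZMod q) * (n : ZMod q) ^ 3) : ℂ) *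
      Pool.Agent.Y933.KD.e (n * η) = e ((a : ℝ) * (n : ℝ) ^ 3 / q + η * n) := by
    intro n _
    have h6 : (a : ZMod q) * (n : ZMod q) ^ 3 = ((a * (n : ℤ) ^ 3 : ℤ) : ZMod q) := by push_cast; rfl
    rw [h6, psi_intM, he, he, ← e_add]
    congr 1
    push_cast
    ring
  rw [Finset.sum_congr rfl h5] at h1
  refine h1.trans (le_of_eq ?_)
  field_simp
  ring

/-- one block -/
lemma block (q N : ℕ) (hq : 1 ≤ q) (hqN : q ≤ N) (a : ℤ) (β : ℝ) (hβ : |β| ≤ 1 / (N * (q : ℝ) ^ 2)) (Γ : ℝ)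
    (hΓ : ∀ b : ℤ, ‖cs q a b‖ ≤ Γ) (ξ : ℝ) (j L : ℕ) (hL : L ≤ q) (hj : q * j ≤ N) :
    ‖∑ x ∈ range L, e (((a : ℝ) / q + β) * ((q * j + x + 1 : ℕ) : ℝ) ^ 3 + ξ * ((q * j + x + 1 : ℕ) : ℝ))‖ ≤
      102 * (Γ * (3 + Real.log q)) := by
  have hqR : (1 : ℝ) ≤ q := by exact_mod_cast hq
  have hq0 : (0 : ℝ) < q := by linarith
  have hqNR : (q : ℝ) ≤ N := by exact_mod_cast hqN
  have hN0 : (0 : ℝ) < N := by linarith
  have hΓ0 : 0 ≤ Γ := (norm_nonneg _).trans (hΓ 0)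
  have hlog : 0 ≤ Real.log q := Real.log_nonneg hqR
  set K := Γ * (3 + Real.log q) with hK
  have hK0 : 0 ≤ K := by positivity
  set n0 : ℝ := (q : ℝ) * j with hn0
  have hn0' : 0 ≤ n0 := by positivity
  have hn0N : n0 ≤ N := by rw [hn0]; exact_mod_cast hj
  set η : ℝ := ξ + 3 * β * n0 ^ 2 with hη
  set c : ℕ → ℂ := fun x => e ((a : ℝ) * ((x + 1 : ℕ) : ℝ) ^ 3 / q + η * ((x + 1 : ℕ) : ℝ)) with hc
  set w : ℕ → ℂ := fun x => e (ξ * n0 + β * (n0 ^ 3 + 3 * n0 * ((x + 1 : ℕ) : ℝ) ^ 2 + ((x + 1 : ℕ) : ℝ) ^ 3)) with hw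
  have hterm : ∀ x ∈ range L, e (((a : ℝ) / q + β) * ((q * j + x + 1 : ℕ) : ℝ) ^ 3 +
      ξ * ((q * j + x + 1 : ℕ) : ℝ)) = c x * w x := by
    intro x _
    rw [hc, hw]
    simp only
    rw [← e_add]
    have h1 : ((a : ℝ) / q + β) * ((q * j + x + 1 : ℕ) : ℝ) ^ 3 + ξ * ((q * j + x + 1 : ℕ) : ℝ) =
        ((a : ℝ) * ((x + 1 : ℕ) : ℝ) ^ 3 / q + η * ((x + 1 : ℕ) : ℝ) +
        (ξ * n0 + β * (n0 ^ 3 + 3 * n0 * ((x + 1 : ℕ) : ℝ) ^ 2 + ((x + 1 : ℕ) : ℝ) ^ 3))) +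
        ((a * j * ((q * j) ^ 2 + 3 * (q * j) * (x + 1) + 3 * (x + 1) ^ 2) : ℤ) : ℝ) := by
      rw [hη, hn0]
      push_cast
      field_simp
      ring
    rw [h1, e_add _ ((_ : ℤ) : ℝ), e_int, mul_one]
  rw [Finset.sum_congr rfl hterm]
  have hpart : ∀ m, m ≤ L → ‖∑ x ∈ range m, c x‖ ≤ K := by
    intro m hm
    have h1 : ∑ x ∈ range m, c x = ∑ n ∈ Ioc 0 m, e ((a : ℝ) * (n : ℝ) ^ 3 / q + η * n) := by
      rw [hc]
      have h2 : Ioc 0 m = Ico 1 (m + 1) := by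
        ext n
        simp only [Finset.mem_Ioc, Finset.mem_Ico]
        omega
      rw [h2, Finset.sum_Ico_eq_sum_range]
      simp only [Nat.add_sub_cancel]
      refine Finset.sum_congr rfl fun x _ => ?_
      rw [add_comm 1 x]
    rw [h1]
    exact inc q hq a Γ hΓ η m (hm.trans hL)
  have h2 := abel c w K hK0 L hpart (fun x => by rw [hw]; simp only; rw [e_norm])
  refine h2.trans ?_
  rw [mul_comm (102 : ℝ)]
  refine mul_le_mul_of_nonneg_left ?_ hK0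
  have hdiff : ∀ x ∈ range L, ‖w (x + 1) - w x‖ ≤ 2 * Real.pi * |β| *
      ((3 * n0 * ((x + 2 : ℕ) : ℝ) ^ 2 + ((x + 2 : ℕ) : ℝ) ^ 3) - (3 * n0 * ((x + 1 : ℕ) : ℝ) ^ 2 + ((x + 1 : ℕ) : ℝ) ^ 3)) := by
    intro x _
    rw [hw]
    simp only
    refine (e_lip _ _).trans ?_
    have h3 : ξ * n0 + β * (n0 ^ 3 + 3 * n0 * ((x + 1 + 1 : ℕ) : ℝ) ^ 2 + ((x + 1 + 1 : ℕ) : ℝ) ^ 3) -
        (ξ * n0 + β * (n0 ^ 3 + 3 * n0 * ((x + 1 : ℕ) : ℝ) ^ 2 + ((x + 1 : ℕ) : ℝ) ^ 3)) =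
        β * ((3 * n0 * ((x + 2 : ℕ) : ℝ) ^ 2 + ((x + 2 : ℕ) : ℝ) ^ 3) -
          (3 * n0 * ((x + 1 : ℕ) : ℝ) ^ 2 + ((x + 1 : ℕ) : ℝ) ^ 3)) := by
      push_cast
      ring
    rw [h3, abs_mul]
    have h4 : 0 ≤ (3 * n0 * ((x + 2 : ℕ) : ℝ) ^ 2 + ((x + 2 : ℕ) : ℝ) ^ 3) -
          (3 * n0 * ((x + 1 : ℕ) : ℝ) ^ 2 + ((x + 1 : ℕ) : ℝ) ^ 3) := by
      have h5 : ((x + 1 : ℕ) : ℝ) ≤ ((x + 2 : ℕ) : ℝ) := by exact_mod_cast (by omega : x + 1 ≤ x + 2)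
      have h6 : ((x + 1 : ℕ) : ℝ) ^ 2 ≤ ((x + 2 : ℕ) : ℝ) ^ 2 := pow_le_pow_left₀ (by positivity) h5 2
      have h7 : ((x + 1 : ℕ) : ℝ) ^ 3 ≤ ((x + 2 : ℕ) : ℝ) ^ 3 := pow_le_pow_left₀ (by positivity) h5 3
      have h8 : 3 * n0 * ((x + 1 : ℕ) : ℝ) ^ 2 ≤ 3 * n0 * ((x + 2 : ℕ) : ℝ) ^ 2 :=
        mul_le_mul_of_nonneg_left h6 (by positivity)
      linarith
    rw [abs_of_nonneg h4]
    apply le_of_eq
    ring
  have hsum := Finset.sum_le_sum hdiff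
  rw [← Finset.mul_sum] at hsum
  have htel : ∑ x ∈ range L, ((3 * n0 * ((x + 2 : ℕ) : ℝ) ^ 2 + ((x + 2 : ℕ) : ℝ) ^ 3) -
      (3 * n0 * ((x + 1 : ℕ) : ℝ) ^ 2 + ((x + 1 : ℕ) : ℝ) ^ 3)) =
      (3 * n0 * ((L + 1 : ℕ) : ℝ) ^ 2 + ((L + 1 : ℕ) : ℝ) ^ 3) - (3 * n0 * ((0 + 1 : ℕ) : ℝ) ^ 2 + ((0 + 1 : ℕ) : ℝ) ^ 3) :=
    Finset.sum_range_sub (fun x : ℕ => 3 * n0 * ((x + 1 : ℕ) : ℝ) ^ 2 + ((x + 1 : ℕ) : ℝ) ^ 3) L
  rw [htel] at hsum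
  have hLq : (L : ℝ) ≤ q := by exact_mod_cast hL
  have hL0 : (0 : ℝ) ≤ L := Nat.cast_nonneg L
  have hval : (3 * n0 * ((L + 1 : ℕ) : ℝ) ^ 2 + ((L + 1 : ℕ) : ℝ) ^ 3) -
      (3 * n0 * ((0 + 1 : ℕ) : ℝ) ^ 2 + ((0 + 1 : ℕ) : ℝ) ^ 3) ≤ 16 * (N * (q : ℝ) ^ 2) := by
    push_cast
    have h3 : 3 * n0 * ((L : ℝ) + 1) ^ 2 - 3 * n0 * (0 + 1) ^ 2 = 3 * n0 * (L * (L + 2)) := by ring
    have h4 : ((L : ℝ) + 1) ^ 3 - (0 + 1) ^ 3 = L * (L ^ 2 + 3 * L + 3) := by ring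
    have h5 : (L : ℝ) * (L + 2) ≤ q * (3 * q) := mul_le_mul hLq (by linarith) (by positivity) hq0.le
    have h6 : 3 * n0 * (L * (L + 2)) ≤ 3 * N * (q * (3 * q)) :=
      mul_le_mul (by linarith) h5 (by positivity) (by positivity)
    have h7 : (L : ℝ) ^ 2 + 3 * L + 3 ≤ 7 * q ^ 2 := by nlinarith
    have h8 : (L : ℝ) * (L ^ 2 + 3 * L + 3) ≤ q * (7 * q ^ 2) := mul_le_mul hLq h7 (by positivity) hq0.le
    have h9 : (q : ℝ) * (7 * q ^ 2) ≤ N * (7 * q ^ 2) := mul_le_mul_of_nonneg_right hqNR (by positivity)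
    nlinarith
  have hpi : Real.pi ≤ 3.15 := Real.pi_lt_d2.le
  have hpi0 := Real.pi_pos
  have hNq : (0 : ℝ) < N * (q : ℝ) ^ 2 := by positivity
  have h10 : 2 * Real.pi * |β| * ((3 * n0 * ((L + 1 : ℕ) : ℝ) ^ 2 + ((L + 1 : ℕ) : ℝ) ^ 3) -
      (3 * n0 * ((0 + 1 : ℕ) : ℝ) ^ 2 + ((0 + 1 : ℕ) : ℝ) ^ 3)) ≤
      2 * Real.pi * |β| * (16 * (N * (q : ℝ) ^ 2)) :=
    mul_le_mul_of_nonneg_left hval (by positivity)
  have h11 : |β| * (N * (q : ℝ) ^ 2) ≤ 1 := by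
    rw [le_div_iff₀ hNq] at hβ
    exact hβ
  have h12 : 2 * Real.pi * |β| * (16 * (N * (q : ℝ) ^ 2)) = 32 * Real.pi * (|β| * (N * (q : ℝ) ^ 2)) := by ring
  have h13 : 32 * Real.pi * (|β| * (N * (q : ℝ) ^ 2)) ≤ 32 * Real.pi * 1 :=
    mul_le_mul_of_nonneg_left h11 (by positivity)
  linarith

/-- all the blocks -/
lemma blocks (q N : ℕ) (hq : 1 ≤ q) (hqN : q ≤ N) (a : ℤ) (β : ℝ) (hβ : |β| ≤ 1 / (N * (q : ℝ) ^ 2)) (Γ : ℝ)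
    (hΓ : ∀ b : ℤ, ‖cs q a b‖ ≤ Γ) (ξ : ℝ) (s : ℕ) (hs : s ≤ q) (j : ℕ) (hj : q * j + s ≤ N) :
    ‖∑ x ∈ range (q * j + s), e (((a : ℝ) / q + β) * ((x + 1 : ℕ) : ℝ) ^ 3 + ξ * ((x + 1 : ℕ) : ℝ))‖ ≤
      (j + 1) * (102 * (Γ * (3 + Real.log q))) := by
  have hgen : ∀ i : ℕ, q * i ≤ N →
      ‖∑ x ∈ range (q * i), e (((a : ℝ) / q + β) * ((x + 1 : ℕ) : ℝ) ^ 3 + ξ * ((x + 1 : ℕ) : ℝ))‖ ≤
      i * (102 * (Γ * (3 + Real.log q))) := by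
    intro i
    induction i with
    | zero => intro _; simp
    | succ i ih =>
      intro hi
      have h1 : q * i ≤ N := le_trans (Nat.mul_le_mul_left q (Nat.le_succ i)) hi
      rw [Nat.mul_succ, Finset.sum_range_add]
      refine (norm_add_le _ _).trans ?_
      have h2 := block q N hq hqN a β hβ Γ hΓ ξ i q le_rfl h1
      push_cast at h2 ih ⊢
      have h3 := ih h1
      nlinarith
  rw [Finset.sum_range_add]
  refine (norm_add_le _ _).trans ?_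
  have h1 : q * j ≤ N := by omega
  have h2 := block q N hq hqN a β hβ Γ hΓ ξ j s hs h1
  have h3 := hgen j h1
  push_cast at h2 h3 ⊢
  nlinarith

/-- **the pointwise bound** -/
theorem small (q N : ℕ) (hq : 1 ≤ q) (hqN : q ≤ N) (a : ℤ) (β : ℝ) (hβ : |β| ≤ 1 / (N * (q : ℝ) ^ 2)) (Γ : ℝ)
    (hΓ : ∀ b : ℤ, ‖cs q a b‖ ≤ Γ) (ξ : ℝ) :
    ‖sm 3 N ((a : ℝ) / q + β) ξ‖ ≤ 204 * ((N : ℝ) / q) * (Γ * (3 + Real.log q)) := by
  have hqR : (1 : ℝ) ≤ q := by exact_mod_cast hq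
  have hq0 : (0 : ℝ) < q := by linarith
  have hqNR : (q : ℝ) ≤ N := by exact_mod_cast hqN
  have hΓ0 : 0 ≤ Γ := (norm_nonneg _).trans (hΓ 0)
  have hlog : 0 ≤ Real.log q := Real.log_nonneg hqR
  have hK0 : 0 ≤ Γ * (3 + Real.log q) := by positivity
  have hdm := Nat.div_add_mod N q
  have h1 := blocks q N hq hqN a β hβ Γ hΓ ξ (N % q) (Nat.mod_lt N (by omega)).le (N / q) (by rw [hdm])
  rw [hdm] at h1
  have h2 : sm 3 N ((a : ℝ) / q + β) ξ =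
      ∑ x ∈ range N, e (((a : ℝ) / q + β) * ((x + 1 : ℕ) : ℝ) ^ 3 + ξ * ((x + 1 : ℕ) : ℝ)) := by
    unfold Pool.Agent.W928.MW.sm
    have h3 : Icc 1 N = Ico 1 (N + 1) := by
      ext n
      simp only [Finset.mem_Icc, Finset.mem_Ico]
      omega
    rw [h3, Finset.sum_Ico_eq_sum_range]
    simp only [Nat.add_sub_cancel]
    refine Finset.sum_congr rfl fun x _ => ?_
    rw [add_comm 1 x]
  rw [h2]
  refine h1.trans ?_
  have h3 : ((N / q : ℕ) : ℝ) ≤ (N : ℝ) / q := Nat.cast_div_le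
  have h4 : (1 : ℝ) ≤ (N : ℝ) / q := by rw [le_div_iff₀ hq0]; linarith
  have h5 : ((N / q : ℕ) : ℝ) + 1 ≤ 2 * ((N : ℝ) / q) := by linarith
  calc (((N / q : ℕ) : ℝ) + 1) * (102 * (Γ * (3 + Real.log q))) ≤
      2 * ((N : ℝ) / q) * (102 * (Γ * (3 + Real.log q))) := mul_le_mul_of_nonneg_right h5 (by positivity)
    _ = _ := by ring

end Pool.Agent.K9h90.CNS
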