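import Pool.Agent.K9h90.CN.L3
import Pool.Agent.K9h90.CN.L4
import Pool.Agent.W928.MW.Sup
import Pool.Agent.TH181.MW.Max
import Pool.Agent.TH181.MX.Sum

/-!
# Project CN: the number of exceptional numerators at one scale (helper90)
-/

set_option autoImplicit false

open Finset

namespace Pool.Agent.K9h90.CNF

open Pool.Agent.K9h90.CN (cs large)
open Pool.Agent.K9h90.CNS (small)
open Pool.Agent.W928.MW (e sm Q)

/-- the threshold at the scale `N` -/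
noncomputable def thr (ε η : ℝ) (q N : ℕ) : ℝ :=
  ((N : ℝ) / 2) ^ (1 + ε) * (q : ℝ) ^ (-η) / (4 + 4 * Real.log N)

open Classical in
/-- the exceptional numerators at the scale `N` -/
noncomputable def bad (ε η : ℝ) (q N : ℕ) (β : ℝ) : Finset ℕ :=
  (range q).filter (fun a => Nat.Coprime a q ∧ ∃ ξ : ℝ, thr ε η q N < ‖sm 3 N ((a : ℝ) / q + β) ξ‖)

lemma bad_sub (ε η : ℝ) (q N : ℕ) (β : ℝ) : bad ε η q N β ⊆ range q := by
  classical
  unfold bad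
  exact Finset.filter_subset _ _

lemma mem_bad (ε η : ℝ) (q N : ℕ) (β : ℝ) (a : ℕ) : a ∈ bad ε η q N β ↔
    a < q ∧ Nat.Coprime a q ∧ ∃ ξ : ℝ, thr ε η q N < ‖sm 3 N ((a : ℝ) / q + β) ξ‖ := by
  classical
  unfold bad
  rw [Finset.mem_filter, Finset.mem_range]

lemma cheb (N q : ℕ) (β V : ℝ) (hV : 0 ≤ V) (S : Finset ℕ) (hS : S ⊆ range q)
    (h : ∀ a ∈ S, ∃ ξ : ℝ, V < ‖sm 3 N ((a : ℝ) / q + β) ξ‖) :
    (S.card : ℝ) * V ^ 4 ≤ (2 * (N : ℝ) + 1) * ∑ b ∈ range q, Q 3 N (β + (b : ℝ) / (q : ℝ)) := by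
  have h0 : ∀ t : ℝ, 0 ≤ Q 3 N t := fun t => by
    unfold Pool.Agent.W928.MW.Q
    positivity
  calc (S.card : ℝ) * V ^ 4 = ∑ _a ∈ S, V ^ 4 := by rw [Finset.sum_const, nsmul_eq_mul]
    _ ≤ ∑ a ∈ S, (2 * (N : ℝ) + 1) * Q 3 N (β + (a : ℝ) / (q : ℝ)) := by
        refine Finset.sum_le_sum fun a ha => ?_
        obtain ⟨ξ, hξ⟩ := h a ha
        have h1 := Pool.Agent.W928.MW.sup 3 N ((a : ℝ) / q + β) ξ
        rw [add_comm β]
        refine le_trans ?_ h1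
        exact pow_le_pow_left₀ hV hξ.le 4
    _ ≤ ∑ a ∈ range q, (2 * (N : ℝ) + 1) * Q 3 N (β + (a : ℝ) / (q : ℝ)) := by
        refine Finset.sum_le_sum_of_subset_of_nonneg hS fun a _ _ => ?_
        have := h0 (β + (a : ℝ) / (q : ℝ))
        positivity
    _ = _ := by rw [Finset.mul_sum]

/-- the moment bound with powers of `N` -/
lemma moment (ε : ℝ) (hε : 0 < ε) : ∃ C : ℝ, 0 < C ∧ ∀ q : ℕ, 2 ≤ q → ∀ β : ℝ, |β| ≤ 1 / (2 * (q : ℝ)) →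
    ∀ N : ℕ, q ≤ N → 1 / (N * (q : ℝ) ^ 2) ≤ |β| →
    (2 * (N : ℝ) + 1) * ∑ b ∈ range q, Q 3 N (β + (b : ℝ) / (q : ℝ)) ≤
      C * (N : ℝ) ^ ε * (q * (N : ℝ) ^ 4 * (|β| + 1 / N)) := by
  obtain ⟨D, hD0, hD⟩ := Pool.Agent.Helper112.divisor_bound (ε / 8) (by positivity)
  obtain ⟨L, hL0, hL⟩ := Pool.Agent.TH181.MX.log_le (ε / 2) (by positivity)
  set D' : ℝ := D * (12 : ℝ) ^ (ε / 8) with hD'
  have hD'0 : 0 < D' := by positivity
  refine ⟨54774 * D' ^ 2 * (2 * L), by positivity, fun q hq β hβ N hqN hβ' => ?_⟩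
  have hN1 : 1 ≤ N := by omega
  have hNR : (1 : ℝ) ≤ N := by exact_mod_cast hN1
  have hN0 : (0 : ℝ) < N := by linarith
  have hq0 : (0 : ℝ) < q := by
    have : 0 < q := by omega
    exact_mod_cast this
  set Y : ℝ := D' * (N : ℝ) ^ (ε / 4) with hY
  have hY0 : 0 ≤ Y := by positivity
  have hΔ : ∀ n : ℕ, 1 ≤ n → n ≤ 12 * N ^ 2 → n.divisors.card ≤ ⌊Y⌋₊ := by
    intro n hn1 hn2
    apply Nat.le_floor
    refine (hD n hn1).trans ?_
    have h1 : (n : ℝ) ≤ 12 * (N : ℝ) ^ 2 := by exact_mod_cast hn2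
    have h2 : (n : ℝ) ^ (ε / 8) ≤ (12 * (N : ℝ) ^ 2) ^ (ε / 8) :=
      Real.rpow_le_rpow (Nat.cast_nonneg n) h1 (by positivity)
    have h3 : (12 * (N : ℝ) ^ 2) ^ (ε / 8) = (12 : ℝ) ^ (ε / 8) * (N : ℝ) ^ (ε / 4) := by
      rw [Real.mul_rpow (by norm_num) (by positivity), ← Real.rpow_natCast (N : ℝ) 2, ← Real.rpow_mul hN0.le]
      congr 2
      push_cast
      ring
    rw [h3] at h2
    calc D * (n : ℝ) ^ (ε / 8) ≤ D * ((12 : ℝ) ^ (ε / 8) * (N : ℝ) ^ (ε / 4)) :=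
          mul_le_mul_of_nonneg_left h2 hD0.le
      _ = Y := by rw [hY, hD']; ring
  have h1 := large N q ⌊Y⌋₊ hq hqN hΔ β hβ hβ'
  refine h1.trans ?_
  have h2 : ((⌊Y⌋₊ : ℕ) : ℝ) ≤ Y := Nat.floor_le hY0
  have h3 : ((⌊Y⌋₊ : ℕ) : ℝ) ^ 2 ≤ Y ^ 2 := pow_le_pow_left₀ (Nat.cast_nonneg _) h2 2
  have h4 : Y ^ 2 = D' ^ 2 * (N : ℝ) ^ (ε / 2) := by
    rw [hY, mul_pow, ← Real.rpow_natCast ((N : ℝ) ^ (ε / 4)) 2, ← Real.rpow_mul hN0.le]
    congr 2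
    push_cast
    ring
  have h5 : 1 + Real.log (2 * (N : ℝ) ^ 2) ≤ 2 * (L * (N : ℝ) ^ (ε / 2)) := by
    have h6 := hL N hN1
    have h7 : Real.log (2 * (N : ℝ) ^ 2) = Real.log 2 + 2 * Real.log N := by
      rw [Real.log_mul (by norm_num) (by positivity), Real.log_pow]
      push_cast
      ring
    have h8 : Real.log 2 ≤ 1 := by
      have := Real.log_two_lt_d9
      linarith
    rw [h7]
    linarith
  have hl0 : 0 ≤ 1 + Real.log (2 * (N : ℝ) ^ 2) := by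
    have : 0 ≤ Real.log (2 * (N : ℝ) ^ 2) := Real.log_nonneg (by nlinarith)
    linarith
  have hX0 : 0 ≤ (q * (N : ℝ) ^ 4 * (|β| + 1 / N)) := by positivity
  calc 54774 * ((⌊Y⌋₊ : ℕ) : ℝ) ^ 2 * (1 + Real.log (2 * (N : ℝ) ^ 2)) * (q * (N : ℝ) ^ 4 * (|β| + 1 / N))
      ≤ 54774 * (D' ^ 2 * (N : ℝ) ^ (ε / 2)) * (2 * (L * (N : ℝ) ^ (ε / 2))) *
        (q * (N : ℝ) ^ 4 * (|β| + 1 / N)) := by
        refine mul_le_mul_of_nonneg_right ?_ hX0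
        refine mul_le_mul ?_ h5 hl0 (by positivity)
        rw [← h4]
        linarith
    _ = 54774 * D' ^ 2 * (2 * L) * ((N : ℝ) ^ (ε / 2) * (N : ℝ) ^ (ε / 2)) *
        (q * (N : ℝ) ^ 4 * (|β| + 1 / N)) := by ring
    _ = _ := by
        rw [← Real.rpow_add hN0]
        congr 3
        ring

/-- lower bound of the threshold -/
lemma thr_lb (ε η δ : ℝ) (hε : 0 < ε) (hδ : 0 < δ) : ∃ c : ℝ, 0 < c ∧ ∀ q N : ℕ, 1 ≤ q → q ≤ N →
    c * (N : ℝ) ^ (1 + ε - δ) * (q : ℝ) ^ (-η) ≤ thr ε η q N := by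
  obtain ⟨L, hL0, hL⟩ := Pool.Agent.TH181.MX.log_le δ hδ
  refine ⟨1 / ((2 : ℝ) ^ (1 + ε) * (4 * L)), by positivity, fun q N hq hqN => ?_⟩
  have hN1 : 1 ≤ N := by omega
  have hNR : (1 : ℝ) ≤ N := by exact_mod_cast hN1
  have hN0 : (0 : ℝ) < N := by linarith
  have hq0 : (0 : ℝ) < q := by exact_mod_cast hq
  have hl : 0 ≤ Real.log N := Real.log_nonneg hNR
  unfold thr
  have h1 : 4 + 4 * Real.log N ≤ 4 * L * (N : ℝ) ^ δ := by
    have := hL N hN1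
    linarith
  rw [Real.div_rpow hN0.le (by norm_num)]
  rw [le_div_iff₀ (by positivity)]
  have h2 : (N : ℝ) ^ (1 + ε) = (N : ℝ) ^ (1 + ε - δ) * (N : ℝ) ^ δ := by
    rw [← Real.rpow_add hN0]
    congr 1
    ring
  rw [h2]
  have h3 : 0 ≤ 1 / ((2 : ℝ) ^ (1 + ε) * (4 * L)) * (N : ℝ) ^ (1 + ε - δ) * (q : ℝ) ^ (-η) := by positivity
  calc 1 / ((2 : ℝ) ^ (1 + ε) * (4 * L)) * (N : ℝ) ^ (1 + ε - δ) * (q : ℝ) ^ (-η) * (4 + 4 * Real.log N) ≤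
      1 / ((2 : ℝ) ^ (1 + ε) * (4 * L)) * (N : ℝ) ^ (1 + ε - δ) * (q : ℝ) ^ (-η) * (4 * L * (N : ℝ) ^ δ) :=
        mul_le_mul_of_nonneg_left h1 h3
    _ = _ := by
        field_simp

/-- **one scale** -/
theorem scale (η : ℝ) (hη0 : 0 ≤ η) (P : ℕ → Prop)
    (hΓ : ∀ ε : ℝ, 0 < ε → ∃ C : ℝ, 1 ≤ C ∧ ∀ q : ℕ, 1 ≤ q → P q → ∀ a b : ℤ, IsCoprime a (q : ℤ) →
      ‖cs q a b‖ ≤ C * (q : ℝ) ^ (1 - η + ε)) (ε : ℝ) (hε : 0 < ε) :
    ∃ C : ℝ, 0 < C ∧ ∀ q : ℕ, 2 ≤ q → ∀ β : ℝ, |β| ≤ 1 / (2 * (q : ℝ)) → ∀ N : ℕ, q ≤ N →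
      (P q ∨ 1 / (N * (q : ℝ) ^ 2) ≤ |β|) →
      ((bad ε η q N β).card : ℝ) ≤ C * (N : ℝ) ^ (-(3 * ε)) * ((q : ℝ) ^ (4 * η + 1) * (|β| + 1 / N)) := by
  obtain ⟨C1, hC1, hmom⟩ := moment (ε / 2) (by positivity)
  obtain ⟨c, hc, hthr⟩ := thr_lb ε η (ε / 8) hε (by positivity)
  obtain ⟨C2, hC2, hcs⟩ := hΓ (ε / 4) (by positivity)
  obtain ⟨L, hL0, hL⟩ := Pool.Agent.TH181.MX.log_le (ε / 4) (by positivity)
  -- the size of N0
  obtain ⟨N0, hN0⟩ : ∃ N0 : ℕ, 1 ≤ N0 ∧ ∀ N : ℕ, N0 ≤ N →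
      204 * C2 * (3 * L) ≤ c * (N : ℝ) ^ (ε / 4) := by
    have h1 : Filter.Tendsto (fun N : ℕ => (N : ℝ) ^ (ε / 4)) Filter.atTop Filter.atTop :=
      (tendsto_rpow_atTop (by positivity)).comp tendsto_natCast_atTop_atTop
    obtain ⟨N0, h2⟩ := Filter.eventually_atTop.1 (h1.eventually_ge_atTop (204 * C2 * (3 * L) / c))
    refine ⟨max 1 N0, le_max_left _ _, fun N hN => ?_⟩
    have h3 := h2 N (le_trans (le_max_right _ _) hN)
    rw [div_le_iff₀ hc] at h3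
    linarith
  obtain ⟨hN01, hN0⟩ := hN0
  have hN0R : (1 : ℝ) ≤ N0 := by exact_mod_cast hN01
  refine ⟨C1 / c ^ 4 + (N0 : ℝ) ^ (3 * ε) * N0, by positivity, fun q hq β hβ N hqN hPP => ?_⟩
  have hN1 : 1 ≤ N := by omega
  have hNR : (1 : ℝ) ≤ N := by exact_mod_cast hN1
  have hNp : (0 : ℝ) < N := by linarith
  have hqR : (2 : ℝ) ≤ q := by exact_mod_cast hq
  have hq0 : (0 : ℝ) < q := by linarith
  have hqNR : (q : ℝ) ≤ N := by exact_mod_cast hqN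
  have hX0 : 0 ≤ (N : ℝ) ^ (-(3 * ε)) * ((q : ℝ) ^ (4 * η + 1) * (|β| + 1 / N)) := by positivity
  rcases le_or_gt (1 / (N * (q : ℝ) ^ 2)) |β| with hβ' | hβ'
  · -- large
    have h1 := hmom q hq β hβ N hqN hβ'
    set V : ℝ := c * (N : ℝ) ^ (1 + ε - ε / 8) * (q : ℝ) ^ (-η) with hV
    have hV0 : 0 < V := by positivity
    have h2 := cheb N q β V hV0.le (bad ε η q N β) (bad_sub ε η q N β)
      (by
        intro a ha
        rw [mem_bad] at ha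
        obtain ⟨_, _, ξ, hξ⟩ := ha
        exact ⟨ξ, lt_of_le_of_lt (hthr q N (by omega) hqN) hξ⟩)
    have h3 : V ^ 4 = c ^ 4 * (N : ℝ) ^ (4 + 4 * ε - ε / 2) * (q : ℝ) ^ (-(4 * η)) := by
      rw [hV, mul_pow, mul_pow, ← Real.rpow_natCast ((N : ℝ) ^ (1 + ε - ε / 8)) 4, ← Real.rpow_mul hNp.le,
        ← Real.rpow_natCast ((q : ℝ) ^ (-η)) 4, ← Real.rpow_mul hq0.le]
      congr 2
      · congr 1
        push_cast
        ring
      · push_cast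
        ring
    have h4 := h2.trans h1
    have hV4 : 0 < V ^ 4 := by positivity
    have h5 : ((bad ε η q N β).card : ℝ) ≤
        C1 * (N : ℝ) ^ (ε / 2) * (q * (N : ℝ) ^ 4 * (|β| + 1 / N)) / V ^ 4 := by
      rw [le_div_iff₀ hV4]
      exact h4
    have h6 : C1 * (N : ℝ) ^ (ε / 2) * (q * (N : ℝ) ^ 4 * (|β| + 1 / N)) / V ^ 4 =
        C1 / c ^ 4 * ((N : ℝ) ^ (-(3 * ε)) * ((q : ℝ) ^ (4 * η + 1) * (|β| + 1 / N))) := by
      rw [h3, div_eq_iff (by positivity)]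
      have h7 : (N : ℝ) ^ (ε / 2) * (N : ℝ) ^ 4 = (N : ℝ) ^ (-(3 * ε)) * (N : ℝ) ^ (4 + 4 * ε - ε / 2) := by
        rw [← Real.rpow_natCast (N : ℝ) 4, ← Real.rpow_add hNp, ← Real.rpow_add hNp]
        congr 1
        push_cast
        ring
      have h8 : (q : ℝ) ^ (4 * η + 1) * (q : ℝ) ^ (-(4 * η)) = q := by
        rw [← Real.rpow_add hq0]
        have : 4 * η + 1 + -(4 * η) = 1 := by ring
        rw [this, Real.rpow_one]
      calc C1 * (N : ℝ) ^ (ε / 2) * (q * (N : ℝ) ^ 4 * (|β| + 1 / N)) =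
          C1 * ((N : ℝ) ^ (ε / 2) * (N : ℝ) ^ 4) * (q * (|β| + 1 / N)) := by ring
        _ = C1 * ((N : ℝ) ^ (-(3 * ε)) * (N : ℝ) ^ (4 + 4 * ε - ε / 2)) *
            (((q : ℝ) ^ (4 * η + 1) * (q : ℝ) ^ (-(4 * η))) * (|β| + 1 / N)) := by rw [h7, h8]
        _ = _ := by
            field_simp
    rw [h6] at h5
    refine h5.trans ?_
    rw [mul_assoc, add_mul]
    have h9 : 0 ≤ (N0 : ℝ) ^ (3 * ε) * N0 * ((N : ℝ) ^ (-(3 * ε)) * ((q : ℝ) ^ (4 * η + 1) * (|β| + 1 / N))) := by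
      positivity
    linarith
  · -- small
    have hP : P q := by
      rcases hPP with h | h
      · exact h
      · exact absurd h (not_le.2 hβ')
    rcases le_or_gt N0 N with hNN | hNN
    · have h1 : bad ε η q N β = ∅ := by
        rw [Finset.eq_empty_iff_forall_notMem]
        intro a ha
        rw [mem_bad] at ha
        obtain ⟨_, hcop, ξ, hξ⟩ := ha
        have hco : IsCoprime (a : ℤ) (q : ℤ) := by exact_mod_cast hcop
        have h2 := small q N (by omega) hqN (a : ℤ) β hβ'.le (C2 * (q : ℝ) ^ (1 - η + ε / 4))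
          (fun b => hcs q (by omega) hP (a : ℤ) b hco) ξ
        have h3 := hthr q N (by omega) hqN
        push_cast at h2
        have h4 := hN0 N hNN
        have h5 := hL q (by omega)
        have hlq : 0 ≤ Real.log q := Real.log_nonneg (by linarith)
        have h6 : 3 + Real.log q ≤ 3 * L * (N : ℝ) ^ (ε / 4) := by
          have h7 : (q : ℝ) ^ (ε / 4) ≤ (N : ℝ) ^ (ε / 4) := Real.rpow_le_rpow hq0.le hqNR (by positivity)
          have h8 : L * (q : ℝ) ^ (ε / 4) ≤ L * (N : ℝ) ^ (ε / 4) := mul_le_mul_of_nonneg_left h7 hL0.le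
          linarith
        have h7 : (q : ℝ) ^ (1 - η + ε / 4) ≤ q * (q : ℝ) ^ (-η) * (N : ℝ) ^ (ε / 4) := by
          have h8 : (q : ℝ) ^ (1 - η + ε / 4) = q * (q : ℝ) ^ (-η) * (q : ℝ) ^ (ε / 4) := by
            have h9 : (q : ℝ) * (q : ℝ) ^ (-η) = (q : ℝ) ^ (1 + -η) := by
              rw [Real.rpow_add hq0, Real.rpow_one]
            rw [h9, ← Real.rpow_add hq0]
            congr 1
          rw [h8]
          exact mul_le_mul_of_nonneg_left (Real.rpow_le_rpow hq0.le hqNR (by positivity)) (by positivity)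
        have h8 : 204 * ((N : ℝ) / q) * (C2 * (q : ℝ) ^ (1 - η + ε / 4) * (3 + Real.log q)) ≤
            204 * ((N : ℝ) / q) * (C2 * (q * (q : ℝ) ^ (-η) * (N : ℝ) ^ (ε / 4)) * (3 * L * (N : ℝ) ^ (ε / 4))) := by
          gcongr
        have h9 : 204 * ((N : ℝ) / q) * (C2 * (q * (q : ℝ) ^ (-η) * (N : ℝ) ^ (ε / 4)) *
            (3 * L * (N : ℝ) ^ (ε / 4))) =
            (204 * C2 * (3 * L)) * (N * (N : ℝ) ^ (ε / 4) * (N : ℝ) ^ (ε / 4)) * (q : ℝ) ^ (-η) := by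
          field_simp
        have h10 : (204 * C2 * (3 * L)) * (N * (N : ℝ) ^ (ε / 4) * (N : ℝ) ^ (ε / 4)) * (q : ℝ) ^ (-η) ≤
            (c * (N : ℝ) ^ (ε / 4)) * (N * (N : ℝ) ^ (ε / 4) * (N : ℝ) ^ (ε / 4)) * (q : ℝ) ^ (-η) := by
          gcongr
        have h11 : (c * (N : ℝ) ^ (ε / 4)) * (N * (N : ℝ) ^ (ε / 4) * (N : ℝ) ^ (ε / 4)) * (q : ℝ) ^ (-η) ≤
            c * (N : ℝ) ^ (1 + ε - ε / 8) * (q : ℝ) ^ (-η) := by
          have h12 : (N : ℝ) ^ (ε / 4) * (N * (N : ℝ) ^ (ε / 4) * (N : ℝ) ^ (ε / 4)) ≤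
              (N : ℝ) ^ (1 + ε - ε / 8) := by
            have h13 : (N : ℝ) ^ (ε / 4) * (N * (N : ℝ) ^ (ε / 4) * (N : ℝ) ^ (ε / 4)) =
                (N : ℝ) ^ (1 + 3 * (ε / 4)) := by
              have h14 : (N : ℝ) ^ (1 + 3 * (ε / 4)) = (N : ℝ) ^ (1 : ℝ) * (N : ℝ) ^ (ε / 4) * (N : ℝ) ^ (ε / 4) *
                  (N : ℝ) ^ (ε / 4) := by
                rw [← Real.rpow_add hNp, ← Real.rpow_add hNp, ← Real.rpow_add hNp]
                congr 1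
                ring
              rw [h14, Real.rpow_one]
              ring
            rw [h13]
            apply Real.rpow_le_rpow_of_exponent_le hNR
            linarith
          calc (c * (N : ℝ) ^ (ε / 4)) * (N * (N : ℝ) ^ (ε / 4) * (N : ℝ) ^ (ε / 4)) * (q : ℝ) ^ (-η) =
              c * ((N : ℝ) ^ (ε / 4) * (N * (N : ℝ) ^ (ε / 4) * (N : ℝ) ^ (ε / 4))) * (q : ℝ) ^ (-η) := by ring
            _ ≤ _ := by gcongr
        linarith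
      rw [h1, Finset.card_empty]
      push_cast
      positivity
    · have h1 : ((bad ε η q N β).card : ℝ) ≤ q := by
        have h2 : (bad ε η q N β).card ≤ (range q).card :=
          Finset.card_le_card (bad_sub ε η q N β)
        rw [Finset.card_range] at h2
        exact_mod_cast h2
      refine h1.trans ?_
      have hN0p : (0 : ℝ) < N0 := by linarith
      have hNN' : (N : ℝ) ≤ N0 := by exact_mod_cast hNN.le
      have h2 : (q : ℝ) ≤ (q : ℝ) ^ (4 * η + 1) := by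
        conv_lhs => rw [← Real.rpow_one (q : ℝ)]
        exact Real.rpow_le_rpow_of_exponent_le (by linarith) (by linarith)
      have h3 : 1 ≤ (N0 : ℝ) * (|β| + 1 / N) := by
        have h4 : 1 ≤ (N0 : ℝ) * (1 / N) := by
          rw [mul_one_div, le_div_iff₀ hNp]; linarith
        have h5 : 0 ≤ (N0 : ℝ) * |β| := by positivity
        linarith
      have h4 : 1 ≤ (N0 : ℝ) ^ (3 * ε) * (N : ℝ) ^ (-(3 * ε)) := by
        rw [Real.rpow_neg hNp.le, ← div_eq_mul_inv, le_div_iff₀ (by positivity), one_mul]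
        exact Real.rpow_le_rpow hNp.le hNN' (by positivity)
      have h5 : (q : ℝ) ≤ ((N0 : ℝ) ^ (3 * ε) * (N : ℝ) ^ (-(3 * ε))) * ((q : ℝ) ^ (4 * η + 1) *
          ((N0 : ℝ) * (|β| + 1 / N))) := by
        have h6 : (q : ℝ) ≤ (q : ℝ) ^ (4 * η + 1) * ((N0 : ℝ) * (|β| + 1 / N)) := by
          calc (q : ℝ) ≤ (q : ℝ) ^ (4 * η + 1) * 1 := by linarith
            _ ≤ _ := mul_le_mul_of_nonneg_left h3 (by positivity)
        calc (q : ℝ) ≤ 1 * ((q : ℝ) ^ (4 * η + 1) * ((N0 : ℝ) * (|β| + 1 / N))) := by linarith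
          _ ≤ _ := mul_le_mul_of_nonneg_right h4 (by positivity)
      have h6 : 0 ≤ C1 / c ^ 4 * (N : ℝ) ^ (-(3 * ε)) * ((q : ℝ) ^ (4 * η + 1) * (|β| + 1 / N)) := by
        have : 0 < C1 / c ^ 4 := by positivity
        positivity
      have h7 : (C1 / c ^ 4 + (N0 : ℝ) ^ (3 * ε) * N0) * (N : ℝ) ^ (-(3 * ε)) *
          ((q : ℝ) ^ (4 * η + 1) * (|β| + 1 / N)) =
          C1 / c ^ 4 * (N : ℝ) ^ (-(3 * ε)) * ((q : ℝ) ^ (4 * η + 1) * (|β| + 1 / N)) +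
          ((N0 : ℝ) ^ (3 * ε) * (N : ℝ) ^ (-(3 * ε))) * ((q : ℝ) ^ (4 * η + 1) *
          ((N0 : ℝ) * (|β| + 1 / N))) := by ring
      rw [h7]
      linarith

end Pool.Agent.K9h90.CNF
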