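import Pool.Agent.K9h90.CN.L5

/-!
# Project CN: all `N ≥ M` at once (helper90)
-/

set_option autoImplicit false

open Finset

namespace Pool.Agent.K9h90.CNF

open Pool.Agent.K9h90.CN (cs)
open Pool.Agent.W928.MW (e sm Q)

/-- passing to a dyadic scale -/
lemma to_scale (ε η : ℝ) (hε : 0 < ε) (q M N : ℕ) (hq : 1 ≤ q) (hM : 1 ≤ M) (hMN : M ≤ N) (t ξ : ℝ)
    (h : (N : ℝ) ^ (1 + ε) * (q : ℝ) ^ (-η) < ‖sm 3 N t ξ‖) :
    ∃ j : ℕ, ∃ ξ' : ℝ, thr ε η q (2 ^ (j + 1) * M) < ‖sm 3 (2 ^ (j + 1) * M) t ξ'‖ := by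
  have hq0 : (0 : ℝ) < q := by exact_mod_cast hq
  have hdiv : N / M ≠ 0 := by
    have := Nat.div_pos hMN (by omega)
    omega
  refine ⟨Nat.log 2 (N / M), ?_⟩
  set j := Nat.log 2 (N / M) with hj
  have h1 : 2 ^ j * M ≤ N := by
    have := Nat.pow_log_le_self 2 hdiv
    exact (Nat.le_div_iff_mul_le (by omega)).1 this
  have h2 : N < 2 ^ (j + 1) * M := by
    have := Nat.lt_pow_succ_log_self (b := 2) (by norm_num) (N / M)
    exact (Nat.div_lt_iff_lt_mul (by omega)).1 this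
  by_contra hcon
  push Not at hcon
  have hNj1 : 1 ≤ 2 ^ (j + 1) * M := by omega
  have h3 := Pool.Agent.TH181.MW.S_MAX_t 3 (2 ^ (j + 1) * M) N t (thr ε η q (2 ^ (j + 1) * M)) hNj1 h2.le hcon ξ
  have h4 : (4 + 4 * Real.log ((2 ^ (j + 1) * M : ℕ) : ℝ)) * thr ε η q (2 ^ (j + 1) * M) =
      (((2 ^ (j + 1) * M : ℕ) : ℝ) / 2) ^ (1 + ε) * (q : ℝ) ^ (-η) := by
    unfold thr
    have hl : 0 ≤ Real.log ((2 ^ (j + 1) * M : ℕ) : ℝ) := Real.log_nonneg (by exact_mod_cast hNj1)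
    have h5 : (4 + 4 * Real.log ((2 ^ (j + 1) * M : ℕ) : ℝ)) ≠ 0 := by positivity
    field_simp
  rw [h4] at h3
  have h5 : ((2 ^ (j + 1) * M : ℕ) : ℝ) / 2 ≤ N := by
    have h6 : ((2 ^ j * M : ℕ) : ℝ) ≤ N := by exact_mod_cast h1
    push_cast at h6 ⊢
    rw [pow_succ]
    linarith
  have h6 : (((2 ^ (j + 1) * M : ℕ) : ℝ) / 2) ^ (1 + ε) ≤ (N : ℝ) ^ (1 + ε) :=
    Real.rpow_le_rpow (by positivity) h5 (by linarith)
  have h7 : (((2 ^ (j + 1) * M : ℕ) : ℝ) / 2) ^ (1 + ε) * (q : ℝ) ^ (-η) ≤ (N : ℝ) ^ (1 + ε) * (q : ℝ) ^ (-η) :=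
    mul_le_mul_of_nonneg_right h6 (by positivity)
  linarith

/-- **all lengths at once** -/
theorem uniform (η : ℝ) (hη0 : 0 ≤ η) (P : ℕ → Prop)
    (hΓ : ∀ ε : ℝ, 0 < ε → ∃ C : ℝ, 1 ≤ C ∧ ∀ q : ℕ, 1 ≤ q → P q → ∀ a b : ℤ, IsCoprime a (q : ℤ) →
      ‖cs q a b‖ ≤ C * (q : ℝ) ^ (1 - η + ε)) (ε : ℝ) (hε : 0 < ε) :
    ∃ C : ℝ, 0 < C ∧ ∀ q : ℕ, 2 ≤ q → ∀ β : ℝ, |β| ≤ 1 / (2 * (q : ℝ)) → ∀ M : ℕ, q ≤ M →
      (P q ∨ 1 / (M * (q : ℝ) ^ 2) ≤ |β|) →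
      ∀ S : Finset ℕ, (∀ a ∈ S, a < q ∧ Nat.Coprime a q ∧ ∃ N : ℕ, M ≤ N ∧ ∃ ξ : ℝ,
        (N : ℝ) ^ (1 + ε) * (q : ℝ) ^ (-η) < ‖sm 3 N ((a : ℝ) / q + β) ξ‖) →
      (S.card : ℝ) ≤ C * (M : ℝ) ^ (-(3 * ε)) * ((q : ℝ) ^ (4 * η + 1) * (|β| + 1 / M)) := by
  classical
  obtain ⟨C, hC, hsc⟩ := scale η hη0 P hΓ ε hε
  set r : ℝ := (2 : ℝ) ^ (-(3 * ε)) with hr
  have hr0 : 0 < r := by positivity
  have hr1 : r < 1 := Real.rpow_lt_one_of_one_lt_of_neg (by norm_num) (by linarith)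
  refine ⟨C * (1 - r)⁻¹, mul_pos hC (inv_pos.2 (by linarith)), fun q hq β hβ M hqM hPM S hS => ?_⟩
  have hM1 : 1 ≤ M := by omega
  have hM0 : (0 : ℝ) < M := by exact_mod_cast hM1
  have hq0 : (0 : ℝ) < q := by
    have : 0 < q := by omega
    exact_mod_cast this
  have hsel : ∀ a ∈ S, ∃ j : ℕ, a ∈ bad ε η q (2 ^ (j + 1) * M) β := by
    intro a ha
    obtain ⟨h1, h2, N, hN, ξ, hξ⟩ := hS a ha
    obtain ⟨j, ξ', hj⟩ := to_scale ε η hε q M N (by omega) hM1 hN _ ξ hξ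
    exact ⟨j, (mem_bad _ _ _ _ _ _).2 ⟨h1, h2, ξ', hj⟩⟩
  choose! J hJ using hsel
  set n := S.sup J + 1 with hn
  have hsub : S ⊆ (range n).biUnion (fun j => bad ε η q (2 ^ (j + 1) * M) β) := by
    intro a ha
    rw [Finset.mem_biUnion]
    refine ⟨J a, ?_, hJ a ha⟩
    rw [Finset.mem_range, hn]
    have := Finset.le_sup (f := J) ha
    omega
  set X : ℝ := (q : ℝ) ^ (4 * η + 1) * (|β| + 1 / M) with hX
  have hX0 : 0 ≤ X := by positivity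
  have hterm : ∀ j ∈ range n, ((bad ε η q (2 ^ (j + 1) * M) β).card : ℝ) ≤
      C * (M : ℝ) ^ (-(3 * ε)) * X * r ^ j := by
    intro j _
    have hMj : M ≤ 2 ^ (j + 1) * M := Nat.le_mul_of_pos_left M (by positivity)
    have hMjR : (M : ℝ) ≤ ((2 ^ (j + 1) * M : ℕ) : ℝ) := by exact_mod_cast hMj
    have h1 := hsc q hq β hβ (2 ^ (j + 1) * M) (hqM.trans hMj) (by
      rcases hPM with h | h
      · exact Or.inl h
      · refine Or.inr (le_trans ?_ h)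
        apply one_div_le_one_div_of_le (by positivity)
        exact mul_le_mul_of_nonneg_right hMjR (by positivity))
    refine h1.trans ?_
    have h2 : (((2 ^ (j + 1) * M : ℕ)) : ℝ) ^ (-(3 * ε)) = (M : ℝ) ^ (-(3 * ε)) * r ^ (j + 1) := by
      push_cast
      rw [Real.mul_rpow (by positivity) hM0.le, mul_comm, hr, ← Real.rpow_natCast (2 : ℝ) (j + 1),
        ← Real.rpow_mul (by norm_num), ← Real.rpow_natCast ((2 : ℝ) ^ (-(3 * ε))) (j + 1),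
        ← Real.rpow_mul (by norm_num), mul_comm ((j + 1 : ℕ) : ℝ)]
    have h3 : (q : ℝ) ^ (4 * η + 1) * (|β| + 1 / ((2 ^ (j + 1) * M : ℕ) : ℝ)) ≤ X := by
      rw [hX]
      have h4 : 1 / ((2 ^ (j + 1) * M : ℕ) : ℝ) ≤ 1 / M :=
        one_div_le_one_div_of_le hM0 (by exact_mod_cast hMj)
      refine mul_le_mul_of_nonneg_left (by linarith) (by positivity)
    rw [h2]
    have h5 : r ^ (j + 1) ≤ r ^ j := pow_le_pow_of_le_one hr0.le hr1.le (Nat.le_succ j)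
    calc C * ((M : ℝ) ^ (-(3 * ε)) * r ^ (j + 1)) * ((q : ℝ) ^ (4 * η + 1) *
          (|β| + 1 / ((2 ^ (j + 1) * M : ℕ) : ℝ))) ≤
        C * ((M : ℝ) ^ (-(3 * ε)) * r ^ j) * X := by gcongr
      _ = _ := by ring
  calc (S.card : ℝ) ≤ (((range n).biUnion (fun j => bad ε η q (2 ^ (j + 1) * M) β)).card : ℝ) := by
        exact_mod_cast Finset.card_le_card hsub
    _ ≤ ∑ j ∈ range n, ((bad ε η q (2 ^ (j + 1) * M) β).card : ℝ) := by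
        exact_mod_cast Finset.card_biUnion_le
    _ ≤ ∑ j ∈ range n, C * (M : ℝ) ^ (-(3 * ε)) * X * r ^ j := Finset.sum_le_sum hterm
    _ = C * (M : ℝ) ^ (-(3 * ε)) * X * ∑ j ∈ range n, r ^ j := by rw [← Finset.mul_sum]
    _ ≤ C * (M : ℝ) ^ (-(3 * ε)) * X * (1 - r)⁻¹ := by
        refine mul_le_mul_of_nonneg_left ?_ (by positivity)
        rw [← tsum_geometric_of_lt_one hr0.le hr1]
        exact (summable_geometric_of_lt_one hr0.le hr1).sum_le_tsum (range n) (fun i _ => by positivity)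
    _ = _ := by ring

end Pool.Agent.K9h90.CNF
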