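import Pool.Agent.K9h90.CN.PP
import Pool.Agent.K9h90.CN.HU

/-!
# Project CN: complete cubic sums to cube-free moduli (helper90, on top of helper24's and helper51's files)
-/

set_option autoImplicit false

open Finset

namespace Pool.Agent.K9h90.CN.CF

open Pool.Agent.K9h90.CN
open Pool.Agent.K9h90.CN.PPL
open Pool.Agent.K9h90.CN.HU (cs_mul cs_one)

lemma sq_half (p : ℕ) : ((p : ℝ) ^ 2) ^ (1 / 2 : ℝ) = p := by
  rw [← Real.sqrt_eq_rpow, Real.sqrt_sq (Nat.cast_nonneg p)]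

lemma cf_pp (p : ℕ) (hp : p.Prime) (r : ℕ) (hr : r ≤ 2) (a b : ℤ) (ha : ¬ (p : ℤ) ∣ a) :
    ‖cs (p ^ r) a b‖ ≤ 27 * ((p : ℝ) ^ r) ^ (1 / 2 : ℝ) := by
  have hpp : (1 : ℝ) ≤ p := by exact_mod_cast hp.one_lt.le
  have hp0 : (0 : ℝ) < p := by exact_mod_cast hp.pos
  have hpi : Prime (p : ℤ) := Nat.prime_iff_prime_int.1 hp
  have hone : (1 : ℝ) ≤ ((p : ℝ) ^ r) ^ (1 / 2 : ℝ) :=
    Real.one_le_rpow (one_le_pow₀ hpp) (by norm_num)
  have htriv : p ^ r ≤ 27 → ‖cs (p ^ r) a b‖ ≤ 27 * ((p : ℝ) ^ r) ^ (1 / 2 : ℝ) := by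
    intro h
    have h1 := norm_cs_le (p ^ r) a b
    have h2 : ((p ^ r : ℕ) : ℝ) ≤ 27 := by exact_mod_cast h
    linarith
  rcases Nat.lt_or_ge 3 p with h3 | h3
  · have h3p : ¬ (p : ℤ) ∣ 3 := by
      intro h
      have h1 : p ∣ 3 := by exact_mod_cast h
      have := Nat.le_of_dvd (by norm_num) h1
      omega
    have h3a : ¬ (p : ℤ) ∣ 3 * a := by
      intro h
      rcases hpi.dvd_or_dvd h with h | h
      · exact h3p h
      · exact ha h
    interval_cases r
    · exact htriv (by norm_num)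
    · have h1 := weil_case p hp h3 a b ha
      rw [pow_one, pow_one]
      rw [Real.sqrt_eq_rpow] at h1
      have h4 : (0 : ℝ) ≤ (p : ℝ) ^ (1 / 2 : ℝ) := by positivity
      linarith
    · rw [sq_half]
      by_cases hb : (p : ℤ) ∣ b
      · obtain ⟨b', rfl⟩ := hb
        have hv : ∀ u : ℤ, ((p ^ 1 : ℕ) : ℤ) ∣ 3 * a * u ^ 2 + (p : ℤ) * b' → (p : ℤ) ∣ u := by
          intro u hu
          rw [pow_one] at hu
          have h1 : (p : ℤ) ∣ 3 * a * u ^ 2 := (Int.dvd_add_left (dvd_mul_right _ _)).1 hu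
          rcases hpi.dvd_or_dvd h1 with h2 | h2
          · exact absurd h2 h3a
          · exact hpi.dvd_of_dvd_pow h2
        rw [only_mult p 2 1 hp (by omega) le_rfl a _ hv]
        refine (norm_sum_le _ _).trans ?_
        rw [sum_congr rfl fun x _ => norm_E _ _, sum_const, card_range, nsmul_eq_mul, mul_one]
        norm_num
        linarith
      · have h1 := s_le p 2 1 hp (by omega) a b
        have h2 := cnt_quad p hp (3 * a) b h3a hb 1 (2 - 1) (by omega) (by omega)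
        have h5 : (((range (p ^ (2 - 1))).filter fun u : ℕ =>
            ((p ^ 1 : ℕ) : ℤ) ∣ 3 * a * (u : ℤ) ^ 2 + b).card : ℝ) ≤ 4 := by
          have : ((range (p ^ (2 - 1))).filter fun u : ℕ =>
            ((p ^ 1 : ℕ) : ℤ) ∣ 3 * a * (u : ℤ) ^ 2 + b).card ≤ 4 := by simpa using h2
          exact_mod_cast this
        calc ‖cs (p ^ 2) a b‖ ≤ _ := h1
          _ ≤ (p : ℝ) ^ 1 * 4 := mul_le_mul_of_nonneg_left h5 (by positivity)
          _ ≤ _ := by rw [pow_one]; linarith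
  · apply htriv
    have : p ^ r ≤ 3 ^ 2 := (Nat.pow_le_pow_left h3 r).trans (Nat.pow_le_pow_right (by norm_num) hr)
    omega

/-- the bound with a power of the number of divisors, cube-free moduli -/
theorem cf_bound {K : ℕ} (hCK : (27 : ℝ) ≤ 2 ^ K) (q : ℕ) :
    1 ≤ q → (∀ p : ℕ, p.Prime → ¬ p ^ 3 ∣ q) → ∀ a b : ℤ, IsCoprime a (q : ℤ) →
      ‖cs q a b‖ ≤ (q.divisors.card : ℝ) ^ K * (q : ℝ) ^ (1 / 2 : ℝ) := by
  induction q using Nat.recOnPosPrimePosCoprime with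
  | prime_pow p r hp hr =>
    intro _ hcf a b hab
    have hr2 : r ≤ 2 := by
      by_contra hcon
      exact hcf p hp (pow_dvd_pow p (by omega))
    have hpa : ¬ (p : ℤ) ∣ a := by
      intro hd
      have h1 : (p : ℤ) ∣ ((p ^ r : ℕ) : ℤ) := by
        push_cast
        exact dvd_pow_self _ (by omega)
      have h2 := hab.isUnit_of_dvd' hd h1
      rw [Int.isUnit_iff] at h2
      have := hp.two_le
      omega
    refine (cf_pp p hp r hr2 a b hpa).trans ?_
    push_cast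
    refine mul_le_mul_of_nonneg_right ?_ (by positivity)
    rw [Nat.divisors_prime_pow hp, Finset.card_map, Finset.card_range]
    refine hCK.trans (pow_le_pow_left₀ (by norm_num) ?_ K)
    have : (1 : ℝ) ≤ r := by exact_mod_cast hr
    push_cast
    linarith
  | zero => intro h0; omega
  | one =>
    intro _ _ a b _
    rw [cs_one]
    simp
  | coprime m n hm hn hmn ihm ihn =>
    intro _ hcf a b hab
    haveI : NeZero m := ⟨by omega⟩
    haveI : NeZero n := ⟨by omega⟩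
    obtain ⟨u, v, huv, he⟩ := cs_mul hmn a b
    push_cast at hab
    have hum : IsCoprime (u * a) (m : ℤ) := by
      refine IsCoprime.mul_left ?_ (IsCoprime.of_mul_right_left hab)
      exact ⟨n, v, by linarith⟩
    have hvn : IsCoprime (v * a) (n : ℤ) := by
      refine IsCoprime.mul_left ?_ (IsCoprime.of_mul_right_right hab)
      exact ⟨m, u, by linarith⟩
    have h1 := ihm (by omega) (fun p hp h => hcf p hp (h.mul_right n)) (u * a) (u * b) hum
    have h2 := ihn (by omega) (fun p hp h => hcf p hp (h.mul_left m)) (v * a) (v * b) hvn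
    rw [he, norm_mul, hmn.card_divisors_mul]
    refine (mul_le_mul h1 h2 (norm_nonneg _) (by positivity)).trans (le_of_eq ?_)
    push_cast
    rw [Real.mul_rpow (Nat.cast_nonneg m) (Nat.cast_nonneg n)]
    ring

/-- square root cancellation for cube-free moduli -/
theorem cf (ε : ℝ) (hε : 0 < ε) : ∃ C : ℝ, 1 ≤ C ∧ ∀ q : ℕ, 1 ≤ q → (∀ p : ℕ, p.Prime → ¬ p ^ 3 ∣ q) →
    ∀ a b : ℤ, IsCoprime a (q : ℤ) → ‖cs q a b‖ ≤ C * (q : ℝ) ^ (1 / 2 + ε : ℝ) := by
  obtain ⟨K, hK⟩ := pow_unbounded_of_one_lt (27 : ℝ) (show (1 : ℝ) < 2 by norm_num)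
  obtain ⟨D, hD0, hD⟩ := Pool.Agent.Helper112.divisor_bound (ε / (K + 1)) (by positivity)
  refine ⟨max 1 (D ^ K), le_max_left _ _, fun q hq hcf a b hab => ?_⟩
  have h1 := cf_bound hK.le q hq hcf a b hab
  refine h1.trans ?_
  have hq1 : (1 : ℝ) ≤ q := by exact_mod_cast hq
  have hq0 : (0 : ℝ) < q := by linarith
  have h2 : (q.divisors.card : ℝ) ^ K ≤ D ^ K * (q : ℝ) ^ ε := by
    refine (pow_le_pow_left₀ (Nat.cast_nonneg _) (hD q hq) K).trans ?_
    rw [mul_pow]
    refine mul_le_mul_of_nonneg_left ?_ (by positivity)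
    rw [← Real.rpow_natCast ((q : ℝ) ^ (ε / (K + 1))) K, ← Real.rpow_mul hq0.le]
    refine Real.rpow_le_rpow_of_exponent_le hq1 ?_
    rw [div_mul_eq_mul_div, div_le_iff₀ (by positivity)]
    nlinarith
  calc (q.divisors.card : ℝ) ^ K * (q : ℝ) ^ (1 / 2 : ℝ)
      ≤ (D ^ K * (q : ℝ) ^ ε) * (q : ℝ) ^ (1 / 2 : ℝ) :=
        mul_le_mul_of_nonneg_right h2 (by positivity)
    _ = D ^ K * (q : ℝ) ^ (1 / 2 + ε : ℝ) := by
        rw [Real.rpow_add hq0]
        ring
    _ ≤ _ := mul_le_mul_of_nonneg_right (le_max_right _ _) (by positivity)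

end Pool.Agent.K9h90.CN.CF
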