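import Pool.Agent.K9h90.CN.PPa
import Pool.Agent.Y951.WP.Main

/-!
# Complete cubic sums modulo prime powers (leaf PP, helper24)
-/

set_option autoImplicit false

open Finset

namespace Pool.Agent.K9h90.CN.PPL

open Pool.Agent.K9h90.CN

lemma cs_eq (q : ℕ) (a b : ℤ) :
    cs q a b = ∑ x ∈ range q, E q (a * (x : ℤ) ^ 3 + b * (x : ℤ)) := rfl

lemma norm_cs_le (q : ℕ) (a b : ℤ) : ‖cs q a b‖ ≤ q := by
  rw [cs_eq]
  refine (norm_sum_le _ _).trans ?_
  rw [sum_congr rfl fun x _ => norm_E _ _]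
  simp

/-- comparison of powers -/
lemma cmp (p n1 n2 : ℕ) (hp : 1 ≤ p) (h : 3 * n1 ≤ 2 * n2) :
    (p : ℝ) ^ n1 ≤ ((p : ℝ) ^ n2) ^ (2 / 3 : ℝ) := by
  have h0 : (0 : ℝ) ≤ p := Nat.cast_nonneg p
  have h1 : (1 : ℝ) ≤ p := by exact_mod_cast hp
  rw [← Real.rpow_natCast (p : ℝ) n2, ← Real.rpow_mul h0, ← Real.rpow_natCast (p : ℝ) n1]
  apply Real.rpow_le_rpow_of_exponent_le h1
  have : (3 : ℝ) * n1 ≤ 2 * n2 := by exact_mod_cast h
  linarith

lemma psi_int {p : ℕ} [NeZero p] (j : ℤ) : (ZMod.stdAddChar (j : ZMod p) : ℂ) = E p j := by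
  rw [ZMod.stdAddChar_coe]
  unfold E e
  congr 1
  push_cast
  ring

lemma weil_case (p : ℕ) (hp : p.Prime) (hp3 : 3 < p) (a b : ℤ) (ha : ¬ (p : ℤ) ∣ a) :
    ‖cs p a b‖ ≤ 2 * Real.sqrt p := by
  have : Fact p.Prime := ⟨hp⟩
  have : NeZero p := ⟨hp.ne_zero⟩
  have hψ : (ZMod.stdAddChar : AddChar (ZMod p) ℂ).IsPrimitive := ZMod.isPrimitive_stdAddChar p
  set f : Polynomial (ZMod p) := Polynomial.C (a : ZMod p) * Polynomial.X ^ 3 +
    Polynomial.C (b : ZMod p) * Polynomial.X with hf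
  have ha' : (a : ZMod p) ≠ 0 := by
    rwa [Ne, ZMod.intCast_zmod_eq_zero_iff_dvd]
  have hdeg : f.natDegree = 3 := by
    rw [hf]
    compute_degree!
  have h := Pool.Agent.Y951.WP.weil_le p f
    (by
      rw [hdeg]
      intro h
      have := Nat.le_of_dvd (by norm_num) h
      omega) hψ
  rw [hdeg] at h
  have h2 : cs p a b = ∑ x : ZMod p, (ZMod.stdAddChar (f.eval x) : ℂ) := by
    rw [cs_eq]
    symm
    refine sum_bij' (fun a _ => a.val) (fun j _ => (j : ZMod p)) ?_ ?_ ?_ ?_ ?_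
    · intro a _
      exact mem_range.2 (ZMod.val_lt a)
    · intro j _
      exact mem_univ _
    · intro a _
      exact ZMod.natCast_zmod_val a
    · intro j hj
      exact ZMod.val_cast_of_lt (mem_range.1 hj)
    · intro x _
      rw [← psi_int]
      congr 1
      rw [hf]
      push_cast
      rw [ZMod.natCast_zmod_val]
      simp
  rw [h2]
  exact_mod_cast h

/-- from the derivative trick -/
lemma s_le (p r s : ℕ) (hp : p.Prime) (hs : 2 * s ≤ r) (a b : ℤ) :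
    ‖cs (p ^ r) a b‖ ≤ (p : ℝ) ^ s * (((range (p ^ (r - s))).filter fun u : ℕ =>
      ((p ^ s : ℕ) : ℤ) ∣ 3 * a * (u : ℤ) ^ 2 + b).card : ℝ) := by
  have h0 : p ^ r = p ^ (r - s) * p ^ s := by
    rw [← pow_add]
    congr 1
    omega
  have h1 := star (fun _ => 1) a b (p ^ (r - s)) (p ^ s) (pow_ne_zero _ hp.ne_zero)
    (pow_ne_zero _ hp.ne_zero) (pow_dvd_pow p (by omega)) (fun _ _ => rfl)
  rw [← h0] at h1
  simp only [one_mul] at h1
  rw [cs_eq, h1, norm_mul]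
  have h2 : ‖((p ^ s : ℕ) : ℂ)‖ = (p : ℝ) ^ s := by
    rw [Complex.norm_natCast]
    push_cast
    rfl
  rw [h2]
  refine mul_le_mul_of_nonneg_left ?_ (by positivity)
  rw [card_filter]
  push_cast
  refine (norm_sum_le _ _).trans (sum_le_sum fun u _ => ?_)
  rw [norm_mul, norm_E, mul_one]
  split_ifs <;> simp

/-- only multiples of `p` contribute -/
lemma only_mult (p r s : ℕ) (hp : p.Prime) (hs : 2 * s ≤ r) (hs1 : 1 ≤ s) (a b : ℤ)
    (h : ∀ u : ℤ, ((p ^ s : ℕ) : ℤ) ∣ 3 * a * u ^ 2 + b → (p : ℤ) ∣ u) :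
    cs (p ^ r) a b = ∑ y ∈ range (p ^ (r - 1)),
      E (p ^ r) (a * ((p * y : ℕ) : ℤ) ^ 3 + b * ((p * y : ℕ) : ℤ)) := by
  classical
  have h0 : p ^ r = p ^ (r - s) * p ^ s := by
    rw [← pow_add]
    congr 1
    omega
  have h00 : p ^ r = p * p ^ (r - 1) := by
    rw [← pow_succ']
    congr 1
    omega
  have h1 := star (fun _ => 1) a b (p ^ (r - s)) (p ^ s) (pow_ne_zero _ hp.ne_zero)
    (pow_ne_zero _ hp.ne_zero) (pow_dvd_pow p (by omega)) (fun _ _ => rfl)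
  have h2 := star (fun x => if (p : ℤ) ∣ x then 1 else 0) a b (p ^ (r - s)) (p ^ s)
    (pow_ne_zero _ hp.ne_zero)
    (pow_ne_zero _ hp.ne_zero) (pow_dvd_pow p (by omega)) (fun u v => by
      have h3 : (p : ℤ) ∣ ((p ^ (r - s) : ℕ) : ℤ) * v := by
        apply Dvd.dvd.mul_right
        push_cast
        exact dvd_pow_self _ (by omega)
      simp only [Int.dvd_add_left h3])
  rw [← h0] at h1 h2
  have h3 := mults (fun x : ℕ => E (p ^ r) (a * (x : ℤ) ^ 3 + b * (x : ℤ))) p (p ^ (r - 1)) hp.pos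
  rw [← h00, h2] at h3
  rw [← h3, cs_eq]
  simp only [one_mul] at h1
  rw [h1]
  congr 1
  refine sum_congr rfl fun u _ => ?_
  by_cases hu : ((p ^ s : ℕ) : ℤ) ∣ 3 * a * (u : ℤ) ^ 2 + b
  · simp only [if_pos hu, if_pos (h _ hu), one_mul]
  · rw [if_neg hu, mul_zero]

/-- the first reduction -/
lemma red1 (p r : ℕ) (hp : p.Prime) (hr : 2 ≤ r) (a b' : ℤ) :
    ∑ y ∈ range (p ^ (r - 1)),
      E (p ^ r) (a * ((p * y : ℕ) : ℤ) ^ 3 + ((p : ℤ) * b') * ((p * y : ℕ) : ℤ)) =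
    (p : ℂ) * ∑ y ∈ range (p ^ (r - 2)),
      E (p ^ (r - 2)) (((p : ℤ) * a) * (y : ℤ) ^ 3 + b' * (y : ℤ)) := by
  have h0 : p ^ r = p ^ (r - 2) * p ^ 2 := by
    rw [← pow_add]
    congr 1
    omega
  have h00 : p ^ (r - 1) = p ^ (r - 2) * p := by
    rw [← pow_succ]
    congr 1
    omega
  rw [h00, ← per (fun y : ℕ => E (p ^ (r - 2)) (((p : ℤ) * a) * (y : ℤ) ^ 3 + b' * (y : ℤ)))]
  · refine sum_congr rfl fun y _ => ?_
    rw [h0, ← E_mul (p ^ (r - 2)) (p ^ 2) (pow_ne_zero _ hp.ne_zero)]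
    congr 1
    push_cast
    ring
  · intro u v
    apply E_congr (pow_ne_zero _ hp.ne_zero)
    refine ⟨(p : ℤ) * a * (3 * u ^ 2 * v + 3 * u * v ^ 2 * (p : ℤ) ^ (r - 2) +
      v ^ 3 * ((p : ℤ) ^ (r - 2)) ^ 2) + b' * v, ?_⟩
    push_cast
    ring

/-- the second reduction -/
lemma red2 (p r : ℕ) (hp : p.Prime) (hr : 3 ≤ r) (a b'' : ℤ) :
    ∑ y ∈ range (p ^ (r - 2)),
      E (p ^ (r - 2)) (((p : ℤ) * a) * (y : ℤ) ^ 3 + ((p : ℤ) * b'') * (y : ℤ)) =
    (p : ℂ) * cs (p ^ (r - 3)) a b'' := by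
  have h0 : p ^ (r - 2) = p ^ (r - 3) * p := by
    rw [← pow_succ]
    congr 1
    omega
  rw [cs_eq, h0, ← per (fun y : ℕ => E (p ^ (r - 3)) (a * (y : ℤ) ^ 3 + b'' * (y : ℤ)))]
  · refine sum_congr rfl fun y _ => ?_
    rw [← E_mul (p ^ (r - 3)) p hp.ne_zero]
    congr 1
    push_cast
    ring
  · intro u v
    apply E_congr (pow_ne_zero _ hp.ne_zero)
    refine ⟨a * (3 * u ^ 2 * v + 3 * u * v ^ 2 * (p : ℤ) ^ (r - 3) +
      v ^ 3 * ((p : ℤ) ^ (r - 3)) ^ 2) + b'' * v, ?_⟩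
    push_cast
    ring

/-- vanishing -/
lemma red0 (p n : ℕ) (hp : p.Prime) (hn : 2 ≤ n) (a b' : ℤ) (hb : ¬ (p : ℤ) ∣ b') :
    ∑ y ∈ range (p ^ n), E (p ^ n) (((p : ℤ) * a) * (y : ℤ) ^ 3 + b' * (y : ℤ)) = 0 := by
  have h0 : p ^ n = p ^ (n - 1) * p := by
    rw [← pow_succ]
    congr 1
    omega
  have h1 := star (fun _ => 1) ((p : ℤ) * a) b' (p ^ (n - 1)) p (pow_ne_zero _ hp.ne_zero)
    hp.ne_zero (dvd_pow_self p (by omega)) (fun _ _ => rfl)
  rw [← h0] at h1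
  simp only [one_mul] at h1
  rw [h1]
  rw [sum_eq_zero, mul_zero]
  intro u _
  rw [if_neg, zero_mul]
  intro h
  apply hb
  have h2 : (p : ℤ) ∣ 3 * ((p : ℤ) * a) * (u : ℤ) ^ 2 := ⟨3 * a * u ^ 2, by ring⟩
  exact (Int.dvd_add_right h2).1 h

/-- the induction step for `b ≡ 0` -/
lemma step (p r s : ℕ) (hp : p.Prime) (hr : 4 ≤ r) (hs : 2 * s ≤ r) (hs1 : 1 ≤ s) (a b' : ℤ)
    (h : ∀ u : ℤ, ((p ^ s : ℕ) : ℤ) ∣ 3 * a * u ^ 2 + (p : ℤ) * b' → (p : ℤ) ∣ u)
    (C : ℝ) (hC : 1 ≤ C)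
    (ih : ∀ b : ℤ, ‖cs (p ^ (r - 3)) a b‖ ≤ C * ((p : ℝ) ^ (r - 3)) ^ (2 / 3 : ℝ)) :
    ‖cs (p ^ r) a ((p : ℤ) * b')‖ ≤ C * ((p : ℝ) ^ r) ^ (2 / 3 : ℝ) := by
  have hpp : (0 : ℝ) < p := by exact_mod_cast hp.pos
  rw [only_mult p r s hp hs hs1 a _ h, red1 p r hp (by omega)]
  by_cases hb : (p : ℤ) ∣ b'
  · obtain ⟨b'', rfl⟩ := hb
    rw [red2 p r hp (by omega), norm_mul, norm_mul, Complex.norm_natCast]
    have h1 : ((p : ℝ) ^ r) ^ (2 / 3 : ℝ) = (p : ℝ) * ((p : ℝ) * ((p : ℝ) ^ (r - 3)) ^ (2 / 3 : ℝ)) := by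
      have e1 : (p : ℝ) ^ r = (p : ℝ) ^ 3 * (p : ℝ) ^ (r - 3) := by
        rw [← pow_add]
        congr 1
        omega
      rw [e1, Real.mul_rpow (by positivity) (by positivity)]
      have e2 : ((p : ℝ) ^ 3) ^ (2 / 3 : ℝ) = (p : ℝ) * p := by
        rw [← Real.rpow_natCast (p : ℝ) 3, ← Real.rpow_mul hpp.le]
        norm_num
        ring
      rw [e2]
      ring
    rw [h1]
    have h2 := ih b''
    calc (p : ℝ) * ((p : ℝ) * ‖cs (p ^ (r - 3)) a b''‖)
        ≤ (p : ℝ) * ((p : ℝ) * (C * ((p : ℝ) ^ (r - 3)) ^ (2 / 3 : ℝ))) := by gcongr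
      _ = _ := by ring
  · rw [red0 p (r - 2) hp (by omega) a b' hb, mul_zero, norm_zero]
    positivity

end Pool.Agent.K9h90.CN.PPL

namespace Pool.Agent.K9h90.CN

open PPL

theorem pp : S_PP := by
  refine ⟨27, by norm_num, ?_⟩
  intro p hp r
  have hpp : (1 : ℝ) ≤ p := by exact_mod_cast hp.one_lt.le
  have hp0 : (0 : ℝ) < p := by exact_mod_cast hp.pos
  have hpi : Prime (p : ℤ) := Nat.prime_iff_prime_int.1 hp
  induction r using Nat.strong_induction_on with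
  | _ r ih =>
  intro a b ha
  have hone : (1 : ℝ) ≤ ((p : ℝ) ^ r) ^ (2 / 3 : ℝ) := by
    have := cmp p 0 r hp.one_lt.le (by omega)
    simpa using this
  -- small `p ^ r`
  have htriv : p ^ r ≤ 27 → ‖cs (p ^ r) a b‖ ≤ 27 * ((p : ℝ) ^ r) ^ (2 / 3 : ℝ) := by
    intro h
    have h1 := norm_cs_le (p ^ r) a b
    have h2 : ((p ^ r : ℕ) : ℝ) ≤ 27 := by exact_mod_cast h
    linarith
  rcases Nat.lt_or_ge r 2 with hr2 | hr2
  · -- `r = 0, 1`
    rcases Nat.eq_zero_or_pos r with rfl | hr0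
    · exact htriv (by norm_num)
    have hr1 : r = 1 := by omega
    subst hr1
    rcases Nat.lt_or_ge 3 p with h3 | h3
    · have h1 := weil_case p hp h3 a b ha
      rw [pow_one, pow_one]
      have h2 : Real.sqrt p ≤ (p : ℝ) ^ (2 / 3 : ℝ) := by
        rw [Real.sqrt_eq_rpow]
        exact Real.rpow_le_rpow_of_exponent_le hpp (by norm_num)
      have h4 : (0 : ℝ) ≤ (p : ℝ) ^ (2 / 3 : ℝ) := by positivity
      linarith
    · exact htriv (by rw [pow_one]; omega)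
  by_cases hp3 : p = 3
  · -- `p = 3`
    subst hp3
    rcases Nat.lt_or_ge r 4 with hr4 | hr4
    · apply htriv
      interval_cases r <;> norm_num
    by_cases hb3 : (3 : ℤ) ∣ b
    · obtain ⟨b', rfl⟩ := hb3
      by_cases hb9 : (3 : ℤ) ∣ b'
      · obtain ⟨b'', rfl⟩ := hb9
        have := step 3 r 2 hp hr4 (by omega) (by norm_num) a (3 * b'') (by
          intro u hu
          have h1 : ((3 ^ 2 : ℕ) : ℤ) ∣ 3 * a * u ^ 2 := by
            refine (Int.dvd_add_left ?_).1 hu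
            push_cast
            exact ⟨b'', by ring⟩
          have h2 : (3 : ℤ) ∣ a * u ^ 2 := by
            obtain ⟨k, hk⟩ := h1
            push_cast at hk
            exact ⟨k, by linarith⟩
          rcases Int.prime_three.dvd_or_dvd h2 with h3 | h3
          · exact absurd h3 ha
          · exact Int.prime_three.dvd_of_dvd_pow h3) 27 (by norm_num)
          (fun b => ih (r - 3) (by omega) a b ha)
        exact_mod_cast this
      · -- `3 ∥ b`
        set s := r / 2 with hs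
        have h1 := s_le 3 r s hp (by omega) a (3 * b')
        have h2 := cnt_quad 3 hp a b' ha hb9 (s - 1) (r - s) (by omega) (by omega)
        have h3 : ((range (3 ^ (r - s))).filter fun u : ℕ =>
            ((3 ^ s : ℕ) : ℤ) ∣ 3 * a * (u : ℤ) ^ 2 + 3 * b').card ≤
            ((range (3 ^ (r - s))).filter fun u : ℕ =>
            ((3 ^ (s - 1) : ℕ) : ℤ) ∣ a * (u : ℤ) ^ 2 + b').card := by
          apply card_le_card
          intro u hu
          rw [mem_filter] at hu ⊢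
          refine ⟨hu.1, ?_⟩
          have h4 := hu.2
          have e1 : ((3 ^ s : ℕ) : ℤ) = 3 * ((3 ^ (s - 1) : ℕ) : ℤ) := by
            have : s = s - 1 + 1 := by omega
            conv_lhs => rw [this, pow_succ]
            push_cast
            ring
          have e2 : 3 * a * (u : ℤ) ^ 2 + 3 * b' = 3 * (a * (u : ℤ) ^ 2 + b') := by ring
          rw [e1, e2] at h4
          exact Int.dvd_of_mul_dvd_mul_left (by norm_num) h4
        have h4 := h3.trans h2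
        have h5 : (((range (3 ^ (r - s))).filter fun u : ℕ =>
            ((3 ^ s : ℕ) : ℤ) ∣ 3 * a * (u : ℤ) ^ 2 + 3 * b').card : ℝ) ≤
            4 * (3 : ℝ) ^ (r - s - (s - 1)) := by exact_mod_cast h4
        have h6 : ((3 : ℕ) : ℝ) ^ s * (4 * (3 : ℝ) ^ (r - s - (s - 1))) =
            12 * ((3 : ℕ) : ℝ) ^ (r - s) := by
          have e1 : r - s = s + (r - s - (s - 1)) - 1 := by omega
          have e2 : (3 : ℝ) ^ (s + (r - s - (s - 1))) = 3 * (3 : ℝ) ^ (r - s) := by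
            rw [← pow_succ']
            congr 1
            omega
          push_cast
          rw [pow_add] at e2
          linarith
        have h7 := cmp 3 (r - s) r (by norm_num) (by omega)
        calc ‖cs (3 ^ r) a (3 * b')‖ ≤ _ := h1
          _ ≤ ((3 : ℕ) : ℝ) ^ s * (4 * (3 : ℝ) ^ (r - s - (s - 1))) := by gcongr
          _ = 12 * ((3 : ℕ) : ℝ) ^ (r - s) := h6
          _ ≤ 12 * (((3 : ℕ) : ℝ) ^ r) ^ (2 / 3 : ℝ) := by gcongr
          _ ≤ _ := by
            have : (0 : ℝ) ≤ (((3 : ℕ) : ℝ) ^ r) ^ (2 / 3 : ℝ) := by positivity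
            linarith
    · have h1 := s_le 3 r 1 hp (by omega) a b
      have h2 : ((range (3 ^ (r - 1))).filter fun u : ℕ =>
          ((3 ^ 1 : ℕ) : ℤ) ∣ 3 * a * (u : ℤ) ^ 2 + b) = ∅ := by
        rw [filter_eq_empty_iff]
        intro u _ h
        apply hb3
        rw [pow_one] at h
        exact (Int.dvd_add_right ⟨a * (u : ℤ) ^ 2, by push_cast; ring⟩).1 h
      rw [h2] at h1
      simp only [card_empty, Nat.cast_zero, mul_zero] at h1
      refine h1.trans ?_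
      positivity
  · -- `p ≠ 3`
    have h3p : ¬ (p : ℤ) ∣ 3 := by
      intro h
      have h1 : p ∣ 3 := by exact_mod_cast h
      exact hp3 ((Nat.prime_dvd_prime_iff_eq hp Nat.prime_three).1 h1)
    have h3a : ¬ (p : ℤ) ∣ 3 * a := by
      intro h
      rcases hpi.dvd_or_dvd h with h | h
      · exact h3p h
      · exact ha h
    by_cases hb : (p : ℤ) ∣ b
    · obtain ⟨b', rfl⟩ := hb
      have hv : ∀ u : ℤ, ((p ^ 1 : ℕ) : ℤ) ∣ 3 * a * u ^ 2 + (p : ℤ) * b' → (p : ℤ) ∣ u := by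
        intro u hu
        rw [pow_one] at hu
        have h1 : (p : ℤ) ∣ 3 * a * u ^ 2 := (Int.dvd_add_left (dvd_mul_right _ _)).1 hu
        rcases hpi.dvd_or_dvd h1 with h2 | h2
        · exact absurd h2 h3a
        · exact hpi.dvd_of_dvd_pow h2
      rcases Nat.lt_or_ge r 4 with hr4 | hr4
      · rw [only_mult p r 1 hp (by omega) le_rfl a _ hv]
        refine (norm_sum_le _ _).trans ?_
        rw [sum_congr rfl fun x _ => norm_E _ _, sum_const, card_range, nsmul_eq_mul, mul_one]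
        have h1 := cmp p (r - 1) r hp.one_lt.le (by omega)
        have h2 : (0 : ℝ) ≤ ((p : ℝ) ^ r) ^ (2 / 3 : ℝ) := by positivity
        push_cast
        linarith
      · exact step p r 1 hp hr4 (by omega) le_rfl a b' hv 27 (by norm_num)
          (fun b => ih (r - 3) (by omega) a b ha)
    · set s := r / 2 with hs
      have h1 := s_le p r s hp (by omega) a b
      have h2 := cnt_quad p hp (3 * a) b h3a hb s (r - s) (by omega) (by omega)
      have h5 : (((range (p ^ (r - s))).filter fun u : ℕ =>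
          ((p ^ s : ℕ) : ℤ) ∣ 3 * a * (u : ℤ) ^ 2 + b).card : ℝ) ≤
          4 * (p : ℝ) ^ (r - s - s) := by exact_mod_cast h2
      have h6 : (p : ℝ) ^ s * (4 * (p : ℝ) ^ (r - s - s)) = 4 * (p : ℝ) ^ (r - s) := by
        have e2 : (p : ℝ) ^ (r - s) = (p : ℝ) ^ s * (p : ℝ) ^ (r - s - s) := by
          rw [← pow_add]
          congr 1
          omega
        rw [e2]
        ring
      have h7 := cmp p (r - s) r hp.one_lt.le (by omega)
      calc ‖cs (p ^ r) a b‖ ≤ _ := h1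
        _ ≤ (p : ℝ) ^ s * (4 * (p : ℝ) ^ (r - s - s)) := by gcongr
        _ = 4 * (p : ℝ) ^ (r - s) := h6
        _ ≤ 4 * ((p : ℝ) ^ r) ^ (2 / 3 : ℝ) := by gcongr
        _ ≤ _ := by
          have : (0 : ℝ) ≤ ((p : ℝ) ^ r) ^ (2 / 3 : ℝ) := by positivity
          linarith

end Pool.Agent.K9h90.CN
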