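import Pool.Agent.K9h90.CN.Stm

/-!
# Complete cubic sums modulo prime powers: elementary part (leaf PP, helper24)
-/

set_option autoImplicit false

open Finset

namespace Pool.Agent.K9h90.CN.PPL

open Pool.Agent.K9h90.CN

lemma e_add (x y : ℝ) : e (x + y) = e x * e y := by
  unfold e
  rw [← Complex.exp_add]
  congr 1
  push_cast
  ring

lemma e_int (n : ℤ) : e (n : ℝ) = 1 := by
  unfold e
  rw [← Complex.exp_int_mul_two_pi_mul_I n]
  congr 1
  push_cast
  ring

lemma norm_e (x : ℝ) : ‖e x‖ = 1 := by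
  unfold e
  rw [← Complex.norm_exp_ofReal_mul_I (2 * Real.pi * x)]
  congr 2
  push_cast
  ring

lemma e_eq_one {x : ℝ} (h : e x = 1) : ∃ n : ℤ, x = n := by
  unfold e at h
  rw [Complex.exp_eq_one_iff] at h
  obtain ⟨n, hn⟩ := h
  refine ⟨n, ?_⟩
  have h2 : (2 * (Real.pi : ℂ) * Complex.I) ≠ 0 := Complex.two_pi_I_ne_zero
  have h3 : (2 * (Real.pi : ℂ) * Complex.I) * (x : ℂ) = (2 * (Real.pi : ℂ) * Complex.I) * (n : ℂ) := by
    rw [hn]; ring
  have h4 := mul_left_cancel₀ h2 h3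
  exact_mod_cast h4

/-- `e(n / q)` -/
noncomputable def E (q : ℕ) (n : ℤ) : ℂ := e ((n : ℝ) / (q : ℝ))

lemma norm_E (q : ℕ) (n : ℤ) : ‖E q n‖ = 1 := norm_e _

lemma E_add (q : ℕ) (m n : ℤ) : E q (m + n) = E q m * E q n := by
  unfold E
  rw [← e_add]
  congr 1
  push_cast
  ring

lemma E_dvd {q : ℕ} (hq : q ≠ 0) {n : ℤ} (h : (q : ℤ) ∣ n) : E q n = 1 := by
  obtain ⟨k, rfl⟩ := h
  unfold E
  rw [← e_int k]
  congr 1
  have : (q : ℝ) ≠ 0 := Nat.cast_ne_zero.2 hq
  push_cast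
  field_simp

lemma E_congr {q : ℕ} (hq : q ≠ 0) {m n : ℤ} (h : (q : ℤ) ∣ m - n) : E q m = E q n := by
  have h1 : m = n + (m - n) := by ring
  rw [h1, E_add, E_dvd hq h, mul_one]

lemma E_mul (q p : ℕ) (hp : p ≠ 0) (n : ℤ) : E (q * p) (p * n) = E q n := by
  unfold E
  congr 1
  have : (p : ℝ) ≠ 0 := Nat.cast_ne_zero.2 hp
  push_cast
  rw [mul_comm (q : ℝ) (p : ℝ)]
  exact mul_div_mul_left _ _ this

lemma E_one_dvd {q : ℕ} (hq : q ≠ 0) {n : ℤ} (h : E q n = 1) : (q : ℤ) ∣ n := by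
  obtain ⟨k, hk⟩ := e_eq_one h
  have : (q : ℝ) ≠ 0 := Nat.cast_ne_zero.2 hq
  rw [div_eq_iff this] at hk
  refine ⟨k, ?_⟩
  have h1 : (n : ℝ) = ((q * k : ℤ) : ℝ) := by
    push_cast
    rw [hk, mul_comm]
  exact_mod_cast h1

lemma orth (T : ℕ) (hT : T ≠ 0) (c : ℤ) :
    ∑ v ∈ range T, E T ((v : ℤ) * c) = if (T : ℤ) ∣ c then (T : ℂ) else 0 := by
  have hpow : ∀ v : ℕ, E T ((v : ℤ) * c) = (E T c) ^ v := by
    intro v
    induction v with
    | zero =>
      rw [pow_zero]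
      exact E_dvd hT (by simp)
    | succ v ih =>
      have h1 : ((v + 1 : ℕ) : ℤ) * c = (v : ℤ) * c + c := by push_cast; ring
      rw [h1, E_add, ih, pow_succ]
  rw [sum_congr rfl fun v _ => hpow v]
  split_ifs with h
  · rw [E_dvd hT h]
    simp
  · have h1 := geom_sum_mul (E T c) T
    have h2 : (E T c) ^ T = 1 := by
      rw [← hpow T]
      exact E_dvd hT (dvd_mul_right _ _)
    rw [h2, sub_self, mul_eq_zero] at h1
    rcases h1 with h1 | h1
    · exact h1
    · exfalso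
      exact h (E_one_dvd hT (sub_eq_zero.1 h1))

/-- sums over `range (M * T)` -/
lemma dec (G : ℕ → ℂ) (M T : ℕ) :
    ∑ x ∈ range (M * T), G x = ∑ u ∈ range M, ∑ v ∈ range T, G (u + M * v) := by
  induction T with
  | zero => simp
  | succ T ih =>
    rw [Nat.mul_succ, sum_range_add, ih, ← sum_add_distrib]
    refine sum_congr rfl fun u _ => ?_
    rw [sum_range_succ, add_comm (M * T) u]

/-- the derivative trick -/
theorem star (w : ℤ → ℂ) (A B : ℤ) (M T : ℕ) (hM : M ≠ 0) (hT : T ≠ 0) (hMT : T ∣ M)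
    (hw : ∀ u v : ℤ, w (u + M * v) = w u) :
    ∑ x ∈ range (M * T), w x * E (M * T) (A * (x : ℤ) ^ 3 + B * (x : ℤ)) =
      (T : ℂ) * ∑ u ∈ range M, w u * (if (T : ℤ) ∣ 3 * A * (u : ℤ) ^ 2 + B then 1 else 0) *
        E (M * T) (A * (u : ℤ) ^ 3 + B * (u : ℤ)) := by
  have hMT0 : M * T ≠ 0 := mul_ne_zero hM hT
  rw [dec, mul_sum]
  refine sum_congr rfl fun u _ => ?_
  have h1 : ∀ v ∈ range T, w ((u + M * v : ℕ) : ℤ) *
      E (M * T) (A * ((u + M * v : ℕ) : ℤ) ^ 3 + B * ((u + M * v : ℕ) : ℤ)) =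
      (w u * E (M * T) (A * (u : ℤ) ^ 3 + B * (u : ℤ))) *
        E T ((v : ℤ) * (3 * A * (u : ℤ) ^ 2 + B)) := by
    intro v _
    have hwv : w ((u + M * v : ℕ) : ℤ) = w u := by
      have := hw (u : ℤ) (v : ℤ)
      rw [← this]
      congr 1
    rw [hwv]
    have h2 : E (M * T) (A * ((u + M * v : ℕ) : ℤ) ^ 3 + B * ((u + M * v : ℕ) : ℤ)) =
        E (M * T) ((A * (u : ℤ) ^ 3 + B * (u : ℤ)) +
          (M : ℤ) * ((v : ℤ) * (3 * A * (u : ℤ) ^ 2 + B))) := by
      apply E_congr hMT0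
      obtain ⟨k, hk⟩ := hMT
      refine ⟨(k : ℤ) * (3 * A * u * v ^ 2 + A * M * v ^ 3), ?_⟩
      have hk' : (M : ℤ) = T * k := by exact_mod_cast hk
      have e1 : (A * ((u + M * v : ℕ) : ℤ) ^ 3 + B * ((u + M * v : ℕ) : ℤ)) -
          ((A * (u : ℤ) ^ 3 + B * (u : ℤ)) + (M : ℤ) * ((v : ℤ) * (3 * A * (u : ℤ) ^ 2 + B))) =
          (M : ℤ) * (M : ℤ) * (3 * A * u * v ^ 2 + A * M * v ^ 3) := by
        push_cast
        ring
      rw [e1]
      calc (M : ℤ) * (M : ℤ) * (3 * A * u * v ^ 2 + A * M * v ^ 3)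
          = (M : ℤ) * (T * k) * (3 * A * u * v ^ 2 + A * M * v ^ 3) := by rw [← hk']
        _ = _ := by push_cast; ring
    rw [h2, E_add]
    have h3 : E (M * T) ((M : ℤ) * ((v : ℤ) * (3 * A * (u : ℤ) ^ 2 + B))) =
        E T ((v : ℤ) * (3 * A * (u : ℤ) ^ 2 + B)) := by
      rw [mul_comm M T]
      exact E_mul T M hM _
    rw [h3]
    ring
  rw [sum_congr rfl h1, ← mul_sum, orth T hT]
  split_ifs
  · ring
  · ring

/-- sums over the multiples of `p` -/
lemma mults (G : ℕ → ℂ) (p m : ℕ) (hp : 0 < p) :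
    ∑ x ∈ range (p * m), (if (p : ℤ) ∣ (x : ℤ) then 1 else 0) * G x = ∑ y ∈ range m, G (p * y) := by
  rw [dec, sum_eq_single 0]
  · refine sum_congr rfl fun v _ => ?_
    rw [if_pos (by push_cast; simp), one_mul, zero_add]
  · intro u hu hu0
    refine sum_eq_zero fun v _ => ?_
    rw [if_neg, zero_mul]
    intro h
    have h1 : p ∣ u + p * v := by exact_mod_cast h
    rw [Nat.dvd_add_left (dvd_mul_right p v)] at h1
    exact hu0 (Nat.eq_zero_of_dvd_of_lt h1 (mem_range.1 hu))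
  · intro h
    exact absurd (mem_range.2 hp) h

/-- periodic sums -/
lemma per (G : ℕ → ℂ) (m k : ℕ) (hG : ∀ u v, G (u + m * v) = G u) :
    ∑ y ∈ range (m * k), G y = (k : ℂ) * ∑ y ∈ range m, G y := by
  rw [dec, mul_sum]
  refine sum_congr rfl fun u _ => ?_
  rw [sum_congr rfl fun v _ => hG u v, sum_const, card_range, nsmul_eq_mul]

lemma cnt_class (m k : ℕ) (c : ℤ) :
    ((range (m * k)).filter fun u : ℕ => (m : ℤ) ∣ (u : ℤ) - c).card ≤ k := by
  have h1 : ((range (m * k)).filter fun u : ℕ => (m : ℤ) ∣ (u : ℤ) - c).card ≤ (range k).card := by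
    apply card_le_card_of_injOn (fun u => u / m)
    · intro u hu
      rw [mem_coe, mem_filter, mem_range] at hu
      rw [mem_coe, mem_range]
      exact Nat.div_lt_of_lt_mul hu.1
    · intro u hu u' hu' he
      rw [mem_coe, mem_filter] at hu hu'
      have h2 : (m : ℤ) ∣ (u : ℤ) - (u' : ℤ) := by
        have := dvd_sub hu.2 hu'.2
        have e1 : (u : ℤ) - c - ((u' : ℤ) - c) = (u : ℤ) - u' := by ring
        rwa [e1] at this
      have h3 : u % m = u' % m := by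
        have h4 : (u' : ℤ) ≡ (u : ℤ) [ZMOD m] := Int.modEq_iff_dvd.2 h2
        exact (Int.natCast_modEq_iff.1 h4).symm
      have h5 : u / m = u' / m := he
      rw [← Nat.div_add_mod u m, ← Nat.div_add_mod u' m, h3, h5]
  rwa [card_range] at h1

/-- solutions of `c u² + d ≡ 0` -/
theorem cnt_quad (p : ℕ) (hp : p.Prime) (c d : ℤ) (hc : ¬ (p : ℤ) ∣ c) (hd : ¬ (p : ℤ) ∣ d)
    (t n : ℕ) (ht : t ≤ n) (ht1 : 1 ≤ t) :
    ((range (p ^ n)).filter fun u : ℕ => ((p ^ t : ℕ) : ℤ) ∣ c * (u : ℤ) ^ 2 + d).card ≤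
      4 * p ^ (n - t) := by
  classical
  have hpi : Prime (p : ℤ) := Nat.prime_iff_prime_int.1 hp
  set F := (range (p ^ n)).filter fun u : ℕ => ((p ^ t : ℕ) : ℤ) ∣ c * (u : ℤ) ^ 2 + d with hF
  rcases F.eq_empty_or_nonempty with h0 | ⟨u₀, hu₀⟩
  · rw [h0, card_empty]
    exact Nat.zero_le _
  rw [hF, mem_filter] at hu₀
  have hu₀p : ¬ (p : ℤ) ∣ (u₀ : ℤ) := by
    intro h
    apply hd
    have h1 : (p : ℤ) ∣ c * (u₀ : ℤ) ^ 2 + d := by
      refine dvd_trans ?_ hu₀.2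
      push_cast
      exact dvd_pow_self _ (by omega)
    have h2 : (p : ℤ) ∣ c * (u₀ : ℤ) ^ 2 := (h.pow (by norm_num)).mul_left c |> fun h => h
    exact (Int.dvd_add_right h2).1 h1
  -- the exponent `j`
  obtain ⟨j, hj1, hj2, hj⟩ : ∃ j, j ≤ t ∧ 2 * p ^ (n - j) ≤ 4 * p ^ (n - t) ∧
      ∀ x y : ℤ, ((p ^ t : ℕ) : ℤ) ∣ x * y → ¬ ((p : ℤ) ∣ y - x ∧ ¬ True) →
        (∃ z : ℤ, y - x = 2 * z ∧ ¬ (p : ℤ) ∣ z) →
        ((p ^ j : ℕ) : ℤ) ∣ x ∨ ((p ^ j : ℕ) : ℤ) ∣ y := by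
    by_cases hp2 : p = 2
    · refine ⟨t - 1, by omega, ?_, ?_⟩
      · subst hp2
        have : n - (t - 1) = n - t + 1 := by omega
        rw [this, pow_succ]
        omega
      · intro x y hxy _ ⟨z, hz, hpz⟩
        subst hp2
        by_cases hx : (2 : ℤ) ∣ x
        · -- both even
          obtain ⟨x', rfl⟩ := hx
          have hy : y = 2 * (x' + z) := by linarith
          rw [hy] at hxy ⊢
          have hcop : ¬ ((2 : ℤ) ∣ x' ∧ (2 : ℤ) ∣ x' + z) := by
            rintro ⟨h1, h2⟩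
            exact hpz ((Int.dvd_add_right h1).1 h2)
          rcases Nat.lt_or_ge t 2 with ht2 | ht2
          · left
            have : t - 1 = 0 := by omega
            rw [this]
            simp
          · have h4 : ((2 ^ (t - 2) : ℕ) : ℤ) ∣ x' * (x' + z) := by
              have e1 : (2 * x') * (2 * (x' + z)) = 4 * (x' * (x' + z)) := by ring
              have e2 : ((2 ^ t : ℕ) : ℤ) = 4 * ((2 ^ (t - 2) : ℕ) : ℤ) := by
                have : t = t - 2 + 2 := by omega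
                conv_lhs => rw [this, pow_add]
                push_cast
                ring
              rw [e1, e2] at hxy
              exact Int.dvd_of_mul_dvd_mul_left (by norm_num) hxy
            have e3 : ((2 ^ (t - 1) : ℕ) : ℤ) = 2 * ((2 ^ (t - 2) : ℕ) : ℤ) := by
              have : t - 1 = t - 2 + 1 := by omega
              rw [this, pow_succ]
              push_cast
              ring
            rw [e3]
            push_cast at h4 ⊢
            by_cases h5 : (2 : ℤ) ∣ x'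
            · left
              have h6 : ¬ (2 : ℤ) ∣ x' + z := fun h => hcop ⟨h5, h⟩
              have h7 : IsCoprime ((2 : ℤ) ^ (t - 2)) (x' + z) :=
                IsCoprime.pow_left ((Int.prime_two.coprime_iff_not_dvd).2 h6)
              exact mul_dvd_mul_left 2 (h7.dvd_of_dvd_mul_right h4)
            · right
              have h7 : IsCoprime ((2 : ℤ) ^ (t - 2)) x' :=
                IsCoprime.pow_left ((Int.prime_two.coprime_iff_not_dvd).2 h5)
              exact mul_dvd_mul_left 2 (h7.dvd_of_dvd_mul_left h4)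
        · right
          have h7 : IsCoprime ((2 : ℤ) ^ t) x :=
            IsCoprime.pow_left ((Int.prime_two.coprime_iff_not_dvd).2 hx)
          push_cast at hxy ⊢
          exact (pow_dvd_pow 2 (by omega)).trans (h7.dvd_of_dvd_mul_left hxy)
    · refine ⟨t, le_rfl, by omega, ?_⟩
      intro x y hxy _ ⟨z, hz, hpz⟩
      by_cases hx : (p : ℤ) ∣ x
      · left
        have hy : ¬ (p : ℤ) ∣ y := by
          intro hy
          have h1 : (p : ℤ) ∣ 2 * z := by rw [← hz]; exact dvd_sub hy hx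
          rcases hpi.dvd_or_dvd h1 with h2 | h2
          · have h3 : p ∣ 2 := by exact_mod_cast h2
            exact hp2 ((Nat.prime_dvd_prime_iff_eq hp Nat.prime_two).1 h3)
          · exact hpz h2
        have h7 : IsCoprime ((p : ℤ) ^ t) y :=
          IsCoprime.pow_left ((hpi.coprime_iff_not_dvd).2 hy)
        push_cast at hxy ⊢
        exact h7.dvd_of_dvd_mul_right hxy
      · right
        have h7 : IsCoprime ((p : ℤ) ^ t) x :=
          IsCoprime.pow_left ((hpi.coprime_iff_not_dvd).2 hx)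
        push_cast at hxy ⊢
        exact h7.dvd_of_dvd_mul_left hxy
  have hsub : F ⊆ ((range (p ^ j * p ^ (n - j))).filter fun u : ℕ => ((p ^ j : ℕ) : ℤ) ∣ (u : ℤ) - u₀) ∪
      ((range (p ^ j * p ^ (n - j))).filter fun u : ℕ => ((p ^ j : ℕ) : ℤ) ∣ (u : ℤ) - (-u₀)) := by
    intro u hu
    rw [hF, mem_filter] at hu
    have hr : u ∈ range (p ^ j * p ^ (n - j)) := by
      rw [← pow_add, Nat.add_sub_cancel' (hj1.trans ht)]
      exact hu.1
    have h1 : ((p ^ t : ℕ) : ℤ) ∣ c * (((u : ℤ) - u₀) * ((u : ℤ) - (-u₀))) := by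
      have := dvd_sub hu.2 hu₀.2
      have e1 : c * (u : ℤ) ^ 2 + d - (c * (u₀ : ℤ) ^ 2 + d) =
          c * (((u : ℤ) - u₀) * ((u : ℤ) - (-u₀))) := by ring
      rwa [e1] at this
    have h2 : ((p ^ t : ℕ) : ℤ) ∣ ((u : ℤ) - u₀) * ((u : ℤ) - (-u₀)) := by
      have h7 : IsCoprime (((p ^ t : ℕ) : ℤ)) c := by
        push_cast
        exact IsCoprime.pow_left ((hpi.coprime_iff_not_dvd).2 hc)
      exact h7.dvd_of_dvd_mul_left h1
    have h3 := hj _ _ h2 (fun h => h.2 trivial) ⟨u₀, by ring, hu₀p⟩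
    rw [mem_union, mem_filter, mem_filter]
    rcases h3 with h3 | h3
    · exact Or.inl ⟨hr, h3⟩
    · exact Or.inr ⟨hr, h3⟩
  calc F.card ≤ _ := card_le_card hsub
    _ ≤ _ + _ := card_union_le _ _
    _ ≤ p ^ (n - j) + p ^ (n - j) := by
        gcongr
        · exact cnt_class _ _ _
        · exact cnt_class _ _ _
    _ = 2 * p ^ (n - j) := by ring
    _ ≤ 4 * p ^ (n - t) := hj2

end Pool.Agent.K9h90.CN.PPL
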