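import Mathlib

/-!
# Project CN (MP_3b0be2_nt, cubic Weyl sums, almost all numerators): statements (helper90)

Every `S_…` is a `Prop`, to be proved as a theorem in a file of its own.
-/

set_option autoImplicit false

open Finset

namespace Pool.Agent.K9h90.CN

/-- `e(x) = exp(2 π i x)` -/
noncomputable def e (x : ℝ) : ℂ := Complex.exp (2 * (Real.pi : ℂ) * Complex.I * (x : ℂ))

/-- the complete cubic sum `∑_{x mod q} e((a x³ + b x)/q)` -/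
noncomputable def cs (q : ℕ) (a b : ℤ) : ℂ :=
  ∑ x ∈ range q, e (((a * (x : ℤ) ^ 3 + b * (x : ℤ) : ℤ) : ℝ) / (q : ℝ))

/-- LEAF PP. Prime powers: `|S(p^r; a, b)| ≤ C p^(2r/3)` for `p ∤ a`, ANY `b`, with one constant `C` for all `p`, `r`
(any `C` is fine, e.g. `C = 27`).

Proof. `p^r ≤ 27` for `p ≤ 3`, `r ≤ 3`: trivial. `r = 0`: the sum is `1`. `r = 1`, `p > 3`: Weil,
`≤ 2 √p`, `Pool.Agent.Y951.WP.weil_le` (see `Pool.Agent.Y951.MW.complete`, `psi_int` in `Y951/MW/{Final,Comp}.lean` for the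
translation). Let `r ≥ 2`, `s = ⌊r/2⌋ ≥ 1`, `f = a x³ + b x`, `f' = 3 a x² + b`. Write `x = u + p^(r-s) v`, `u` mod `p^(r-s)`, `v` mod
`p^s`; as `2 (r - s) ≥ r`, `f(x) ≡ f(u) + p^(r-s) v f'(u)` mod `p^r`, and the sum over `v` vanishes unless `p^s ∣ f'(u)`. So

`(*)  S = p^s ∑_{u mod p^(r-s), p^s ∣ f'(u)} e(f(u)/p^r)`.

(1) `p > 3`, `p ∤ b`: then `p ∤ u`, and `3 a u² ≡ -b` mod `p^s` has at most `2` solutions mod `p^s` (if `u² ≡ u'²` mod `p^s`,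
`p ∤ u`, `p ≠ 2`, then `u' ≡ ± u`), i.e. at most `2 p^(r-2s)` mod `p^(r-s)`: `|S| ≤ 2 p^(r-s)`, and `r - s ≤ 2r/3` for `r ≥ 2`.
(2) `p > 3`, `p ∣ b`: `p ∣ u` in `(*)`. `r = 2, 3`: `|S| ≤ p^s · p^(r-s-1) = p^(r-1) ≤ p^(2r/3)`. `r ≥ 4`: by `(*)` (or directly by the
vanishing of the sum over every class `u` mod `p^(r-s)` with `p ∤ u`) only `x = p y` contributes:
`S = ∑_{y mod p^(r-1)} e((a p³ y³ + b p y)/p^r)`; with `b = p b'` this is `p ∑_{y mod p^(r-2)} e((a p y³ + b' y)/p^(r-2))`. If `p ∤ b'` the map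
`y ↦ a p y³ + b' y` is a bijection mod `p^(r-2)` (injective as `(y - z)(a p (y² + y z + z²) + b')`), so `S = 0`. If `b' = p b''`
then `S = p² S(p^(r-3); a, b'')`, and induction on `r` gives `|S(p^r; a, b)| ≤ C p^(2r/3)` with the same `C`.
(3) `p = 2`: the same with: `b` odd: at most `4` solutions mod `2^s`. (4) `p = 3`: `3 ∤ b`: `(*)` is empty. `b = 3 b₁`, `3 ∤ b₁`:
`a u² + b₁ ≡ 0` mod `3^(s-1)`, at most `2` solutions mod `3^(s-1)`, so at most `2 · 3^(r-2s+1)` mod `3^(r-s)`: `|S| ≤ 6 · 3^(r-s)`.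
`9 ∣ b`, `r ≥ 4`: `3 ∣ u` and `S = 3² S(3^(r-3); a, b/9)` (for `r ≥ 4`, `x = 3 y`, `(27 a y³ + 3 b y)/3^r`). -/
def S_PP : Prop := ∃ C : ℝ, 1 ≤ C ∧ ∀ p : ℕ, p.Prime → ∀ r : ℕ, ∀ a b : ℤ, ¬ (p : ℤ) ∣ a →
  ‖cs (p ^ r) a b‖ ≤ C * ((p : ℝ) ^ r) ^ (2 / 3 : ℝ)

/-- LEAF HU (from `S_PP`; prove `theorem hu (h : S_PP) : S_HU`). Multiplicativity:
`cs (m n) a b = cs m (a n²) b * cs n (a m²) b` for coprime `m, n` (`x = n x₁ + m x₂`), so by induction over the prime powers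
(`Nat.recOnPosPrimePosCoprime` or `induction_on_primes`), `|cs q a b| ≤ C^ω(q) q^(2/3)`, and `C^ω(q) ≤ τ(q)^K` if `C ≤ 2^K`,
`τ(q) ≤ C_δ q^δ` (`Pool.Agent.Helper112.divisor_bound`). -/
def S_HU : Prop := ∀ ε : ℝ, 0 < ε → ∃ C : ℝ, 1 ≤ C ∧ ∀ q : ℕ, 1 ≤ q → ∀ a b : ℤ,
  IsCoprime a (q : ℤ) → ‖cs q a b‖ ≤ C * (q : ℝ) ^ (2 / 3 + ε : ℝ)

end Pool.Agent.K9h90.CN
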